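import Mathlib

/-!
# Ultrametric functions
-/

set_option autoImplicit false

namespace Pool.Agent.N302.MB

/-- the ultrametric inequality, for three different elements (as for the valuations of
differences) -/
def Ult {α : Type} (e : α → α → ℤ) : Prop :=
  (∀ i j, e i j = e j i) ∧ ∀ i j k, i ≠ j → j ≠ k → i ≠ k → min (e i j) (e j k) ≤ e i k

end Pool.Agent.N302.MB
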