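import Mathlib
import Pool.Agent.N302.MB.Ult

/-!
# The centroid of an ultrametric, and the products at the centroid
-/

set_option autoImplicit false

namespace Pool.Agent.N302.MB

open Finset

section

variable {α : Type} [Fintype α] [DecidableEq α]

/-- The centroid: a function `D` and a height `h`, such that the function
`e i j + h - D i - D j` is nonnegative and ultrametric, and all its classes have at most half of the
elements. -/
theorem centroid (e : α → α → ℤ) (he : Ult e) (hα : 3 ≤ Fintype.card α) :
    ∃ (h : ℤ) (D : α → ℤ), (∀ i, D i ≤ h) ∧ (∃ i, D i = h) ∧
      (∀ i j, i ≠ j → 0 ≤ e i j + h - D i - D j) ∧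
      (∀ i j k, i ≠ j → j ≠ k → i ≠ k →
        min (e i j + h - D i - D j) (e j k + h - D j - D k) ≤ e i k + h - D i - D k) ∧
      ∀ i, 2 * (univ.filter fun j => i = j ∨ 0 < e i j + h - D i - D j).card ≤ Fintype.card α := by
  classical
  set N := Fintype.card α with hN
  -- the size of the classes
  let c : ℤ → α → Finset α := fun t i => univ.filter fun j => i = j ∨ t ≤ e i j
  have hne : (univ : Finset (α × α)).Nonempty := by
    have : Nonempty α := Fintype.card_pos_iff.1 (by omega)
    exact Finset.univ_nonempty
  obtain ⟨lo, hlo⟩ : ∃ lo : ℤ, ∀ i j, lo ≤ e i j :=
    ⟨(univ : Finset (α × α)).inf' hne fun x => e x.1 x.2, fun i j =>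
      Finset.inf'_le (f := fun x : α × α => e x.1 x.2) (mem_univ (i, j))⟩
  obtain ⟨hi, hhi⟩ : ∃ hi : ℤ, ∀ i j, e i j ≤ hi :=
    ⟨(univ : Finset (α × α)).sup' hne fun x => e x.1 x.2, fun i j =>
      Finset.le_sup' (f := fun x : α × α => e x.1 x.2) (mem_univ (i, j))⟩
  obtain ⟨i1⟩ : Nonempty α := Fintype.card_pos_iff.1 (by omega)
  have hex : ∃ t : ℤ, ∃ i, N < 2 * (c t i).card := by
    refine ⟨lo, i1, ?_⟩
    have : c lo i1 = univ := by
      ext j
      simp only [c, mem_filter, mem_univ, true_and]
      exact ⟨fun _ => trivial, fun _ => Or.inr (hlo _ _)⟩
    rw [this, card_univ]
    omega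
  have hbd : ∀ t : ℤ, (∃ i, N < 2 * (c t i).card) → t ≤ hi := by
    rintro t ⟨i, ht⟩
    by_contra hlt
    have : c t i = {i} := by
      ext j
      simp only [c, mem_filter, mem_univ, true_and, mem_singleton]
      constructor
      · rintro (h | h)
        · exact h.symm
        · have := hhi i j
          omega
      · intro h
        exact Or.inl h.symm
    rw [this, card_singleton] at ht
    omega
  obtain ⟨h, ⟨s, hs⟩, hmax⟩ := Int.exists_greatest_of_bdd ⟨hi, hbd⟩ hex
  have hmax' : ∀ i, 2 * (c (h + 1) i).card ≤ N := by
    intro i
    by_contra hlt
    have := hmax (h + 1) ⟨i, by omega⟩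
    omega
  let D : α → ℤ := fun i => if i = s then h else min h (e i s)
  have hDs : D s = h := if_pos rfl
  have hDn : ∀ i, i ≠ s → D i = min h (e i s) := fun i hi => if_neg hi
  have hDle : ∀ i, D i ≤ h := by
    intro i
    by_cases h' : i = s
    · rw [h', hDs]
    · rw [hDn i h']
      exact min_le_left _ _
  obtain ⟨hsym, hult⟩ := he
  refine ⟨h, D, hDle, ⟨s, hDs⟩, ?_, ?_, ?_⟩
  · intro i j hij
    by_cases hi : i = s
    · subst hi
      rw [hDs, hDn j hij.symm]
      have := hsym i j
      omega
    · by_cases hj : j = s
      · subst hj
        rw [hDs, hDn i hi]
        omega
      · rw [hDn i hi, hDn j hj]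
        have h1 := hult i s j hi (Ne.symm hj) hij
        have := hsym s j
        omega
  · intro i j k hij hjk hik
    have h1 := hult i j k hij hjk hik
    have h2 := hult j i k (Ne.symm hij) hik hjk
    have h3 := hult i k j hik (Ne.symm hjk) hij
    have e1 := hsym i j
    have e2 := hsym j k
    have e3 := hsym i k
    by_cases hi : i = s
    · have hj : j ≠ s := fun h => hij (hi.trans h.symm)
      have hk : k ≠ s := fun h => hik (hi.trans h.symm)
      rw [hDn j hj, hDn k hk]
      subst hi
      rw [hDs]
      omega
    · by_cases hj : j = s
      · have hk : k ≠ s := fun h => hjk (hj.trans h.symm)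
        rw [hDn i hi, hDn k hk]
        subst hj
        rw [hDs]
        omega
      · by_cases hk : k = s
        · rw [hDn i hi, hDn j hj]
          subst hk
          rw [hDs]
          omega
        · rw [hDn i hi, hDn j hj, hDn k hk]
          have f1 := hult i s j hi (Ne.symm hj) hij
          have f2 := hult j s k hj (Ne.symm hk) hjk
          have f3 := hult i s k hi (Ne.symm hk) hik
          have f4 := hult i j s hij hj hi
          have f5 := hult j i s (Ne.symm hij) hi hj
          have f6 := hult j k s hjk hk hj
          have f7 := hult k j s (Ne.symm hjk) hj hk
          have f8 := hult i k s hik hk hi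
          have f9 := hult k i s (Ne.symm hik) hi hk
          have e4 := hsym s i
          have e5 := hsym s j
          have e6 := hsym s k
          omega
  · intro i
    by_cases hi : i = s ∨ h ≤ e i s
    · -- in the large class
      have hDi : D i = h := by
        rcases hi with hi | hi
        · rw [hi, hDs]
        · by_cases h' : i = s
          · rw [h', hDs]
          · rw [hDn i h']
            omega
      refine le_trans (Nat.mul_le_mul_left 2 (Finset.card_le_card ?_)) (hmax' i)
      intro j hj
      simp only [c, mem_filter, mem_univ, true_and] at hj ⊢
      rcases hj with hj | hj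
      · exact Or.inl hj
      · by_cases hij : i = j
        · exact Or.inl hij
        · right
          rw [hDi] at hj
          by_cases hjs : j = s
          · subst hjs
            rw [hDs] at hj
            omega
          · rw [hDn j hjs] at hj
            rcases hi with hi | hi
            · subst hi
              have := hsym i j
              omega
            · by_cases his : i = s
              · subst his
                have := hsym i j
                omega
              · have f1 := hult j i s (Ne.symm hij) his hjs
                have := hsym i j
                omega
    · -- outside of the large class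
      push Not at hi
      obtain ⟨his, hlt⟩ := hi
      have hDi : D i = e i s := by
        rw [hDn i his]
        omega
      have hdisj : Disjoint (univ.filter fun j => i = j ∨ 0 < e i j + h - D i - D j) (c h s) := by
        rw [Finset.disjoint_left]
        intro j hj hj'
        simp only [c, mem_filter, mem_univ, true_and] at hj hj'
        rw [hDi] at hj
        rcases hj' with hj' | hj'
        · subst hj'
          rw [hDs] at hj
          rcases hj with hj | hj
          · exact his hj
          · omega
        · by_cases hjs : j = s
          · subst hjs
            rw [hDs] at hj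
            rcases hj with hj | hj
            · exact his hj
            · omega
          · rw [hDn j hjs] at hj
            have e5 := hsym s j
            have e4 := hsym s i
            rcases hj with hj | hj
            · subst hj
              omega
            · by_cases hij : i = j
              · subst hij
                omega
              · have f1 := hult s j i (Ne.symm hjs) (Ne.symm hij) (Ne.symm his)
                have := hsym i j
                omega
      have h1 := Finset.card_union_of_disjoint hdisj
      have h2 := Finset.card_le_univ ((univ.filter fun j => i = j ∨ 0 < e i j + h - D i - D j) ∪ c h s)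
      rw [h1] at h2
      omega

end

end Pool.Agent.N302.MB
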