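import Mathlib

/-!
# The sum of the largest values of an ultrametric kernel
-/

set_option autoImplicit false

namespace Pool.Agent.N302.MB

open Finset

section

variable {α : Type} [DecidableEq α]

/-- If `b i + b j ≥ g i j` for all `i ≠ j`, `b ≥ 0`, the sum of the largest values is at most
`5/2` times the sum of the `b i`. -/
theorem charge (g : α → α → ℤ) (hs : ∀ i j, g i j = g j i)
    (hu : ∀ i j k, i ≠ j → j ≠ k → i ≠ k → min (g i j) (g j k) ≤ g i k) (b : α → ℚ)
    (hb0 : ∀ i, 0 ≤ b i) (hb : ∀ i j, i ≠ j → (g i j : ℚ) ≤ b i + b j) (n : ℕ) :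
    ∀ (S F : Finset α) (ρ : α → ℚ), S.card = n → F ⊆ S →
      (∀ k ∈ F, ∃ j ∈ S, j ≠ k ∧ ρ k ≤ g k j) →
      ∑ k ∈ F, ρ k ≤ ∑ k ∈ S, (if k ∈ F then 5 / 2 else 1) * b k := by
  induction n with
  | zero =>
    intro S F ρ hS hF _
    rw [Finset.card_eq_zero] at hS
    subst hS
    rw [Finset.subset_empty] at hF
    subst hF
    simp
  | succ n ih =>
    intro S F ρ hS hF hρ
    by_cases hn : n = 0
    · -- one element
      have hF0 : F = ∅ := by
        by_contra hne
        obtain ⟨k, hk⟩ := Finset.nonempty_iff_ne_empty.2 hne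
        obtain ⟨j, hj, hjk, -⟩ := hρ k hk
        have := Finset.one_lt_card.2 ⟨j, hj, k, hF hk, hjk⟩
        omega
      rw [hF0, Finset.sum_empty]
      refine Finset.sum_nonneg fun k _ => mul_nonneg ?_ (hb0 k)
      split_ifs <;> norm_num
    · have h2 : 1 < S.card := by omega
      obtain ⟨i0, hi0, j0, hj0, hij0⟩ := Finset.one_lt_card.1 h2
      obtain ⟨x, hx, hmax⟩ := Finset.exists_max_image S.offDiag (fun x => g x.1 x.2)
        ⟨(i0, j0), Finset.mem_offDiag.2 ⟨hi0, hj0, hij0⟩⟩
      rw [Finset.mem_offDiag] at hx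
      have hmax' : ∀ k ∈ S, ∀ l ∈ S, k ≠ l → g k l ≤ g x.1 x.2 := fun k hk l hl hkl =>
        hmax (k, l) (Finset.mem_offDiag.2 ⟨hk, hl, hkl⟩)
      -- the larger of the two elements of the pair
      obtain ⟨i, j, hi, hj, hij, hbij, hm⟩ : ∃ i j, i ∈ S ∧ j ∈ S ∧ i ≠ j ∧ b j ≤ b i ∧
          ∀ k ∈ S, ∀ l ∈ S, k ≠ l → g k l ≤ g i j := by
        rcases le_total (b x.2) (b x.1) with h | h
        · exact ⟨x.1, x.2, hx.1, hx.2.1, hx.2.2, h, hmax'⟩
        · refine ⟨x.2, x.1, hx.2.1, hx.1, hx.2.2.symm, h, ?_⟩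
          rw [hs x.2 x.1]
          exact hmax'
      set h : ℚ := (g i j : ℚ) with hh
      have hhb : h ≤ b i + b j := hb i j hij
      have hρ' : ∀ k ∈ F, ρ k ≤ h := by
        intro k hk
        obtain ⟨l, hl, hlk, hle⟩ := hρ k hk
        refine hle.trans ?_
        have := hm k (hF hk) l hl hlk.symm
        rw [hh]
        exact_mod_cast this
      have hrec := ih (S.erase i) ((F.erase i).erase j) ρ (by rw [Finset.card_erase_of_mem hi]; omega)
        (fun k hk => by
          rw [Finset.mem_erase, Finset.mem_erase] at hk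
          exact Finset.mem_erase.2 ⟨hk.2.1, hF hk.2.2⟩)
        (fun k hk => by
          rw [Finset.mem_erase, Finset.mem_erase] at hk
          obtain ⟨l, hl, hlk, hle⟩ := hρ k hk.2.2
          by_cases hli : l = i
          · subst hli
            refine ⟨j, Finset.mem_erase.2 ⟨hij.symm, hj⟩, Ne.symm hk.1, hle.trans ?_⟩
            have h3 := hu k l j hk.2.1 hij hk.1
            have h4 := hm k (hF hk.2.2) l hi hk.2.1
            have : g k l ≤ g k j := by
              rw [min_eq_left h4] at h3
              exact h3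
            exact_mod_cast this
          · exact ⟨l, Finset.mem_erase.2 ⟨hli, hl⟩, hlk, hle⟩)
      -- the sums
      have hjS : j ∈ S.erase i := Finset.mem_erase.2 ⟨hij.symm, hj⟩
      have e1 : ∑ k ∈ S, (if k ∈ F then (5 / 2 : ℚ) else 1) * b k =
          (if i ∈ F then (5 / 2 : ℚ) else 1) * b i + ((if j ∈ F then (5 / 2 : ℚ) else 1) * b j +
            ∑ k ∈ (S.erase i).erase j, (if k ∈ F then (5 / 2 : ℚ) else 1) * b k) := by
        rw [← Finset.add_sum_erase S _ hi, ← Finset.add_sum_erase (S.erase i) _ hjS]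
      have e2 : ∑ k ∈ S.erase i, (if k ∈ (F.erase i).erase j then (5 / 2 : ℚ) else 1) * b k =
          b j + ∑ k ∈ (S.erase i).erase j, (if k ∈ F then (5 / 2 : ℚ) else 1) * b k := by
        rw [← Finset.add_sum_erase _ _ hjS]
        congr 1
        · rw [if_neg (by simp), one_mul]
        · refine Finset.sum_congr rfl fun k hk => ?_
          rw [Finset.mem_erase, Finset.mem_erase] at hk
          have : k ∈ (F.erase i).erase j ↔ k ∈ F := by
            rw [Finset.mem_erase, Finset.mem_erase]
            exact ⟨fun h => h.2.2, fun h => ⟨hk.1, hk.2.1, h⟩⟩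
          simp only [this]
      have e3 : ∑ k ∈ F, ρ k = (if i ∈ F then ρ i else 0) + (if j ∈ F then ρ j else 0) +
          ∑ k ∈ (F.erase i).erase j, ρ k := by
        have h5 : j ∈ F.erase i ↔ j ∈ F := by
          rw [Finset.mem_erase]
          exact ⟨fun h => h.2, fun h => ⟨hij.symm, h⟩⟩
        have h6 : ∑ k ∈ F.erase i, ρ k = (if j ∈ F then ρ j else 0) +
            ∑ k ∈ (F.erase i).erase j, ρ k := by
          by_cases hjF : j ∈ F
          · rw [if_pos hjF, Finset.add_sum_erase _ _ (h5.2 hjF)]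
          · rw [if_neg hjF, zero_add, Finset.erase_eq_of_notMem fun h => hjF (h5.1 h)]
        by_cases hiF : i ∈ F
        · rw [if_pos hiF, add_assoc, ← h6, Finset.add_sum_erase _ _ hiF]
        · rw [if_neg hiF, zero_add, ← h6, Finset.erase_eq_of_notMem hiF]
      rw [e1, e3]
      rw [e2] at hrec
      have hbi := hb0 i
      have hbj := hb0 j
      by_cases hiF : i ∈ F <;> by_cases hjF : j ∈ F
      · have := hρ' i hiF
        have := hρ' j hjF
        simp only [hiF, hjF, if_true]
        linarith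
      · have := hρ' i hiF
        simp only [hiF, hjF, if_true, if_false]
        linarith
      · have := hρ' j hjF
        simp only [hiF, hjF, if_true, if_false]
        linarith
      · simp only [hiF, hjF, if_false]
        linarith

end

end Pool.Agent.N302.MB
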