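import Mathlib
import Pool.Agent.X4.SU.UE

/-!
# The unit equation: two terms have one of finitely many quotients
-/

set_option autoImplicit false

namespace Pool.Agent.N302.MB

open Finset NumberField Height Module
open Pool.Agent.Helper259.AbsHt Pool.Agent.Y215.SK Pool.Agent.X4.SU

/-- finitely many ratios of the terms of nondegenerate unit equations -/
theorem ratios_fg (Γ : Subgroup Qbarˣ) (hΓ : Γ.FG) (r : ℕ) :
    ∃ R : Set Qbar, R.Finite ∧ ∀ u : Fin (r + 1) → Qbarˣ, (∀ i, u i ∈ Γ) →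
      ∑ i, (u i : Qbar) = 0 →
      (∀ J : Finset (Fin (r + 1)), J.Nonempty → ∑ i ∈ J, (u i : Qbar) = 0 → J = univ) →
      ∀ i j, (u i : Qbar) / (u j : Qbar) ∈ R := by
  classical
  obtain ⟨T, hT⟩ := id hΓ
  obtain ⟨L, hL, hmem⟩ := exists_nf ((fun x : Qbarˣ => (x : Qbar)) '' (T : Set Qbarˣ))
    (T.finite_toSet.image _)
  have hΓL : ∀ x ∈ Γ, (x : Qbar) ∈ L := by
    intro x hx
    rw [← hT] at hx
    refine Subgroup.closure_induction (p := fun (y : Qbarˣ) _ => (y : Qbar) ∈ L) ?_ ?_ ?_ ?_ hx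
    · intro y hy
      exact hmem _ ⟨y, hy, rfl⟩
    · exact one_mem L
    · intro y z _ _ hy hz
      rw [Units.val_mul]
      exact mul_mem hy hz
    · intro y _ hy
      rw [Units.val_inv_eq_inv_val]
      exact inv_mem hy
  obtain ⟨C, hC⟩ := bounded Γ hΓ r
  refine ⟨(fun x : L => (x : Qbar)) '' {x : L | logHeight₁ x ≤ C * finrank ℚ L},
    (Northcott.finite_le (h := fun x : L => logHeight₁ x) (C * finrank ℚ L)).image _, ?_⟩
  intro u hu hsum hnd i j
  have h1 := hC u hu hsum hnd i j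
  refine ⟨⟨(u i : Qbar) / (u j : Qbar), div_mem (hΓL _ (hu i)) (hΓL _ (hu j))⟩, ?_, rfl⟩
  have h2 := h1_eq L (algebraMap L Qbar)
    ⟨(u i : Qbar) / (u j : Qbar), div_mem (hΓL _ (hu i)) (hΓL _ (hu j))⟩
  have hpos : (0 : ℝ) < finrank ℚ L := by exact_mod_cast Module.finrank_pos
  have h3 : Pool.Agent.Y215.SK.h1 ((algebraMap L Qbar) ⟨(u i : Qbar) / (u j : Qbar),
    div_mem (hΓL _ (hu i)) (hΓL _ (hu j))⟩) ≤ C := h1
  rw [h2, div_le_iff₀ hpos] at h3
  exact h3

/-- **Partners.** -/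
theorem partner (Γ : Subgroup Qbarˣ) (hΓ : Γ.FG) {W : Type} [Fintype W] [DecidableEq W]
    [Nonempty W] (c : W → Qbarˣ) :
    ∃ R : Set Qbar, R.Finite ∧ ∀ u : W → Qbarˣ, (∀ w, u w ∈ Γ) →
      ∑ w, (c w : Qbar) * (u w : Qbar) = 0 → ∃ w w', w ≠ w' ∧ (u w : Qbar) / (u w' : Qbar) ∈ R := by
  classical
  have hΓ' : (Γ ⊔ Subgroup.closure (Set.range c)).FG :=
    hΓ.sup ⟨Finset.univ.image c, by simp⟩
  choose R hR1 hR2 using ratios_fg _ hΓ'
  refine ⟨⋃ r ∈ Finset.range (Fintype.card W), ⋃ w : W, ⋃ w' : W,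
    (fun x : Qbar => x * ((c w' : Qbar) / (c w : Qbar))) '' R r, ?_, ?_⟩
  · refine Set.Finite.biUnion (Finset.finite_toSet _) fun r _ => ?_
    exact Set.finite_iUnion fun w => Set.finite_iUnion fun w' => (hR1 r).image _
  · intro u hu hsum
    have hex : ∃ n, ∃ J : Finset W, J.card = n ∧ J.Nonempty ∧
        ∑ w ∈ J, (c w : Qbar) * (u w : Qbar) = 0 :=
      ⟨_, univ, rfl, univ_nonempty, hsum⟩
    obtain ⟨J, hJn, hJne, hJs⟩ := Nat.find_spec hex
    have hmin : ∀ J' : Finset W, J'.Nonempty → ∑ w ∈ J', (c w : Qbar) * (u w : Qbar) = 0 →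
        J.card ≤ J'.card := by
      intro J' h1 h2
      rw [hJn]
      exact Nat.find_min' hex ⟨J', rfl, h1, h2⟩
    have h1 : 1 < J.card := by
      by_contra h
      have h2 : J.card = 1 := by
        have := hJne.card_pos
        omega
      obtain ⟨w, hw⟩ := Finset.card_eq_one.1 h2
      rw [hw, Finset.sum_singleton] at hJs
      exact mul_ne_zero (c w).ne_zero (u w).ne_zero hJs
    obtain ⟨r, hr⟩ : ∃ r, J.card = r + 1 := ⟨J.card - 1, by omega⟩
    let e : Fin (r + 1) ≃ J := (finCongr hr.symm).trans J.equivFin.symm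
    have hsumE : ∀ I : Finset (Fin (r + 1)), ∑ i ∈ I, ((c (e i) * u (e i) : Qbarˣ) : Qbar) =
        ∑ w ∈ I.map (e.toEmbedding.trans (Function.Embedding.subtype _)),
          (c w : Qbar) * (u w : Qbar) := by
      intro I
      rw [Finset.sum_map]
      rfl
    have h2 := hR2 r (fun i => c (e i) * u (e i)) (fun i => mul_mem
      (Subgroup.mem_sup_right (Subgroup.subset_closure ⟨_, rfl⟩))
      (Subgroup.mem_sup_left (hu _))) (by
        rw [hsumE]
        convert hJs using 2
        ext w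
        simp only [mem_map, mem_univ, true_and, Function.Embedding.trans_apply,
          Equiv.coe_toEmbedding, Function.Embedding.subtype_apply]
        constructor
        · rintro ⟨a, rfl⟩
          exact (e a).2
        · intro hw
          exact ⟨e.symm ⟨w, hw⟩, by simp⟩) (by
        intro I hI h3
        rw [hsumE] at h3
        have h4 := hmin _ (by simpa using hI) h3
        rw [Finset.card_map] at h4
        rw [← Finset.card_eq_iff_eq_univ, Fintype.card_fin]
        have h5 := Finset.card_le_univ I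
        rw [Fintype.card_fin] at h5
        omega)
    have h01 : (⟨0, by omega⟩ : Fin (r + 1)) ≠ ⟨1, by omega⟩ := by
      intro h
      have := congrArg Fin.val h
      simp at this
    refine ⟨e ⟨0, by omega⟩, e ⟨1, by omega⟩, fun h => h01 (e.injective (Subtype.ext h)), ?_⟩
    simp only [Set.mem_iUnion]
    refine ⟨r, ?_, e ⟨0, by omega⟩, e ⟨1, by omega⟩, _, h2 ⟨0, by omega⟩ ⟨1, by omega⟩, ?_⟩
    · rw [Finset.mem_range]
      have := Finset.card_le_univ J
      omega
    · have h6 := (c (e ⟨0, by omega⟩)).ne_zero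
      have h7 := (c (e ⟨1, by omega⟩)).ne_zero
      have h8 := (u (e ⟨1, by omega⟩)).ne_zero
      simp only [Units.val_mul]
      field_simp

end Pool.Agent.N302.MB
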