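import Mathlib

/-!
# Discrete valuations of function fields in one variable
-/

set_option autoImplicit false

namespace Pool.Agent.N302.MB

open Polynomial IsDedekindDomain

/-- an integer valued valuation of a field -/
structure IsVal {F : Type} [Field F] (v : F → ℤ) : Prop where
  mul : ∀ a b, a ≠ 0 → b ≠ 0 → v (a * b) = v a + v b
  add : ∀ a b, a ≠ 0 → b ≠ 0 → a + b ≠ 0 → min (v a) (v b) ≤ v (a + b)

/-- the valuation of a prime of a Dedekind domain -/
theorem isVal_adic {C F : Type} [CommRing C] [IsDedekindDomain C] [Field F] [Algebra C F]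
    [IsFractionRing C F] (P : HeightOneSpectrum C) :
    IsVal fun x : F => -(WithZero.log (P.valuation F x)) := by
  constructor
  · intro a b ha hb
    show -(WithZero.log (P.valuation F (a * b))) = _
    rw [map_mul, WithZero.log_mul ((Valuation.ne_zero_iff _).2 ha) ((Valuation.ne_zero_iff _).2 hb)]
    ring
  · intro a b ha hb hab
    have h1 := Valuation.map_add (P.valuation F) a b
    have hav := (Valuation.ne_zero_iff (P.valuation F)).2 ha
    have hbv := (Valuation.ne_zero_iff (P.valuation F)).2 hb
    have habv := (Valuation.ne_zero_iff (P.valuation F)).2 hab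
    show min (-(WithZero.log (P.valuation F a))) (-(WithZero.log (P.valuation F b))) ≤
      -(WithZero.log (P.valuation F (a + b)))
    rcases le_total (P.valuation F a) (P.valuation F b) with h | h
    · rw [max_eq_right h, ← WithZero.log_le_log habv hbv] at h1
      exact (min_le_right _ _).trans (neg_le_neg h1)
    · rw [max_eq_left h, ← WithZero.log_le_log habv hav] at h1
      exact (min_le_left _ _).trans (neg_le_neg h1)

/-- zeros of elements of a Dedekind domain -/
theorem exists_val_dedekind {C F : Type} [CommRing C] [IsDedekindDomain C] [Field F] [Algebra C F]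
    [IsFractionRing C F] (Q : Ideal C) (hQ : Q.IsMaximal) (x : C) (hx : x ∈ Q) (hx0 : x ≠ 0) :
    ∃ v : F → ℤ, IsVal v ∧ 0 < v (algebraMap C F x) ∧
      ∀ c : C, IsUnit c → v (algebraMap C F c) = 0 := by
  let w : HeightOneSpectrum C := ⟨Q, hQ.isPrime, fun h => hx0 (by
    rw [h] at hx
    exact hx)⟩
  refine ⟨_, isVal_adic (F := F) w, ?_, ?_⟩
  · have h1 : w.valuation F (algebraMap C F x) < 1 := (w.valuation_lt_one_iff_mem _).2 hx
    have hx1 : algebraMap C F x ≠ 0 := by
      rwa [Ne, FaithfulSMul.algebraMap_eq_zero_iff]
    have h3 := (Valuation.ne_zero_iff (w.valuation F)).2 hx1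
    have h4 : WithZero.log (w.valuation F (algebraMap C F x)) < WithZero.log 1 :=
      (WithZero.log_lt_log h3 one_ne_zero).2 h1
    rw [WithZero.log_one] at h4
    show 0 < -(WithZero.log (w.valuation F (algebraMap C F x)))
    omega
  · intro c hc
    obtain ⟨d, hd⟩ := hc.exists_right_inv
    have h2 := w.valuation_le_one (K := F) c
    have h3 := w.valuation_le_one (K := F) d
    have h4 : w.valuation F (algebraMap C F c) * w.valuation F (algebraMap C F d) = 1 := by
      rw [← map_mul, ← map_mul, hd, map_one, map_one]
    have h5 : w.valuation F (algebraMap C F c) = 1 := by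
      refine le_antisymm h2 ?_
      rw [← h4]
      exact mul_le_of_le_one_right' h3
    show -(WithZero.log (w.valuation F (algebraMap C F c))) = 0
    rw [h5, WithZero.log_one]
    rfl

section

attribute [local instance] FractionRing.liftAlgebra

theorem exists_val_pid {A F : Type} [CommRing A] [IsDomain A] [IsPrincipalIdealRing A] [CharZero A]
    [Field F] [Algebra A F] [FaithfulSMul A F] [Algebra.IsAlgebraic A F] (s : Finset F)
    (hs : ∀ L : Subfield F, (∀ a : A, algebraMap A F a ∈ L) → (∀ x ∈ s, x ∈ L) → L = ⊤)
    (a : A) (ha0 : a ≠ 0) (ha : ¬ IsUnit a) :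
    ∃ v : F → ℤ, IsVal v ∧ 0 < v (algebraMap A F a) ∧
      ∀ c : A, IsUnit c → v (algebraMap A F c) = 0 := by
  classical
  have : CharZero (FractionRing A) := charZero_of_injective_algebraMap
    (IsFractionRing.injective A (FractionRing A))
  have halg2 : Algebra.IsAlgebraic (FractionRing A) F :=
    Algebra.IsAlgebraic.extendScalars (R := A) (IsFractionRing.injective A (FractionRing A))
  have hfin : FiniteDimensional (FractionRing A) F := by
    have h1 : IntermediateField.adjoin (FractionRing A) (s : Set F) = ⊤ := by
      have h2 := hs (IntermediateField.adjoin (FractionRing A) (s : Set F)).toSubfield (by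
        intro a
        rw [IsScalarTower.algebraMap_apply A (FractionRing A) F]
        exact IntermediateField.algebraMap_mem _ _) (fun x hx =>
          IntermediateField.subset_adjoin _ _ hx)
      rw [eq_top_iff]
      intro x _
      have h3 : x ∈ (IntermediateField.adjoin (FractionRing A) (s : Set F)).toSubfield := by
        rw [h2]
        exact Subfield.mem_top x
      exact h3
    have h2 : FiniteDimensional (FractionRing A)
        (IntermediateField.adjoin (FractionRing A) (s : Set F)) :=
      IntermediateField.finiteDimensional_adjoin fun x _ =>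
        (Algebra.IsAlgebraic.isAlgebraic x).isIntegral
    have h3 : Function.Surjective
        (IntermediateField.adjoin (FractionRing A) (s : Set F)).val.toLinearMap := by
      intro x
      refine ⟨⟨x, ?_⟩, rfl⟩
      rw [h1]
      trivial
    exact Module.Finite.of_surjective _ h3
  have hfC : IsFractionRing (integralClosure A F) F :=
    IsIntegralClosure.isFractionRing_of_finite_extension A (FractionRing A) F (integralClosure A F)
  obtain ⟨P, hPm, hP⟩ := Ideal.exists_le_maximal (Ideal.span {a}) (by
    rwa [Ne, Ideal.span_singleton_eq_top])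
  have hinj : Function.Injective (algebraMap A (integralClosure A F)) := by
    intro x y hxy
    exact FaithfulSMul.algebraMap_injective A F (congrArg Subtype.val hxy)
  obtain ⟨Q, hQm, hQ⟩ := Ideal.exists_ideal_over_maximal_of_isIntegral
    (S := integralClosure A F) P (by
    rw [(RingHom.injective_iff_ker_eq_bot _).1 hinj]
    exact bot_le)
  have haP : a ∈ P := hP (Ideal.mem_span_singleton_self a)
  have haQ : algebraMap A (integralClosure A F) a ∈ Q := by
    rw [← hQ] at haP
    exact haP
  obtain ⟨v, h1, h2, h3⟩ := exists_val_dedekind (F := F) Q hQm _ haQ (fun h => ha0 (by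
    rw [← map_zero (algebraMap A (integralClosure A F))] at h
    exact hinj h))
  exact ⟨v, h1, h2, fun c hc => h3 _ (hc.map (algebraMap A (integralClosure A F)))⟩

end

open IntermediateField.algebraAdjoinAdjoin in
/-- **Existence of a place.** `F` is an algebraic extension, generated by finitely many elements, of
`K(e)` with `e` transcendental over `K`; there is a zero of `e`. -/
theorem exists_val {K F : Type} [Field K] [Field F] [Algebra K F] [CharZero K] (e : F)
    (he : Transcendental K e) (halg : Algebra.IsAlgebraic (IntermediateField.adjoin K {e}) F)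
    (s : Finset F) (hs : ∀ L : Subfield F, (∀ a : K, algebraMap K F a ∈ L) →
      (∀ x ∈ s, x ∈ L) → L = ⊤) :
    ∃ v : F → ℤ, IsVal v ∧ 0 < v e ∧ ∀ c : K, c ≠ 0 → v (algebraMap K F c) = 0 := by
  let _ : Algebra K[X] F := (aeval (R := K) e).toRingHom.toAlgebra
  have hmap : ∀ q : K[X], algebraMap K[X] F q = aeval (R := K) e q := fun q => rfl
  have hinj : Function.Injective (aeval (R := K) e) := transcendental_iff_injective.1 he
  have hf : FaithfulSMul K[X] F := (faithfulSMul_iff_algebraMap_injective _ _).2 hinj
  have halg2 : Algebra.IsAlgebraic (Algebra.adjoin K {e}) F :=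
    Algebra.IsAlgebraic.trans (Algebra.adjoin K {e}) (IntermediateField.adjoin K {e}) F
  have hmem : e ∈ Algebra.adjoin K {e} := Algebra.self_mem_adjoin_singleton K e
  have hcomp : ∀ q : K[X], ((aeval (R := K) (⟨e, hmem⟩ : Algebra.adjoin K {e}) q :
      Algebra.adjoin K {e}) : F) = aeval (R := K) e q := by
    intro q
    have := (Polynomial.aeval_algebraMap_apply F (⟨e, hmem⟩ : Algebra.adjoin K {e}) q)
    exact this.symm
  have ha : Algebra.IsAlgebraic K[X] F := by
    refine Algebra.IsAlgebraic.of_ringHom_of_comp_eq (S := Algebra.adjoin K {e}) (B := F)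
      (aeval (R := K) (⟨e, hmem⟩ : Algebra.adjoin K {e})).toRingHom (RingHom.id F)
      ?_ Function.injective_id ?_
    · rintro ⟨y, hy⟩
      have hy' := hy
      rw [Algebra.adjoin_singleton_eq_range_aeval] at hy'
      obtain ⟨q, hq⟩ := hy'
      refine ⟨q, Subtype.ext ?_⟩
      exact (hcomp q).trans hq
    · ext q
      · exact hcomp (C q)
      · exact hcomp X
  obtain ⟨v, h1, h2, h3⟩ := exists_val_pid (A := K[X]) (F := F) s (fun L hL hx => hs L (fun a => by
    have := hL (C a)
    rwa [hmap, aeval_C] at this) hx) X X_ne_zero not_isUnit_X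
  refine ⟨v, h1, ?_, fun c hc => ?_⟩
  · rwa [hmap, aeval_X] at h2
  · have := h3 (C c) (isUnit_C.2 hc.isUnit)
    rwa [hmap, aeval_C] at this

open IntermediateField.algebraAdjoinAdjoin in
/-- a zero of a member of a transcendence basis which is neither a zero nor a pole of the others -/
theorem exists_val_basis {Ω F : Type} [Field Ω] [Field F] [Algebra Ω F] [CharZero Ω] (B : Set F)
    (hB : IsTranscendenceBasis Ω ((↑) : B → F)) (e : F) (heB : e ∈ B) (s : Finset F)
    (hs : ∀ L : Subfield F, (∀ a : Ω, algebraMap Ω F a ∈ L) → (∀ x ∈ s, x ∈ L) → L = ⊤)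
    (e' : F) (he' : e' = e ∨ e' = e⁻¹) :
    ∃ v : F → ℤ, IsVal v ∧ 0 < v e' ∧ ∀ b ∈ B, b ≠ e → v b = 0 := by
  have hcz : CharZero F := charZero_of_injective_algebraMap (algebraMap Ω F).injective
  set K := IntermediateField.adjoin Ω (B \ {e}) with hK
  have hins : insert e (B \ {e}) = B := by
    rw [Set.insert_sdiff_singleton, Set.insert_eq_of_mem heB]
  have hind : AlgebraicIndepOn Ω (id : F → F) (insert e (B \ {e})) := by
    rw [hins]
    exact hB.1
  have h1 := (AlgebraicIndepOn.insert_iff (R := Ω) (x := (id : F → F)) (s := B \ {e}) (i := e)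
    (by simp)).1 hind
  have htr1 : Transcendental (Algebra.adjoin Ω (B \ {e})) e := by
    have := h1.2
    rwa [Set.image_id] at this
  have htr : Transcendental K e := by
    intro halg
    apply htr1
    have h2 := (IsFractionRing.isAlgebraic_iff (Algebra.adjoin Ω (B \ {e})) K F (x := e)).2 halg
    exact h2
  have htr' : Transcendental K e' := by
    rcases he' with rfl | rfl
    · exact htr
    · exact fun h => htr (IsAlgebraic.inv_iff.1 h)
  have halg0 : Algebra.IsAlgebraic (IntermediateField.adjoin Ω B) F := by
    have := hB.isAlgebraic_field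
    rwa [Subtype.range_coe] at this
  have hle : ∀ y ∈ IntermediateField.adjoin Ω B, y ∈ IntermediateField.adjoin K {e'} := by
    intro y hy
    have h3 : IntermediateField.adjoin Ω B ≤
        (IntermediateField.adjoin K {e'}).restrictScalars Ω := by
      rw [IntermediateField.adjoin_le_iff]
      intro b hb
      by_cases hbe : b = e
      · have h4 : e' ∈ IntermediateField.adjoin K {e'} :=
          IntermediateField.mem_adjoin_simple_self K e'
        rw [hbe]
        rcases he' with h | h
        · show e ∈ IntermediateField.adjoin K {e'}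
          rw [← h]
          exact h4
        · show e ∈ IntermediateField.adjoin K {e'}
          have h5 := inv_mem h4
          rwa [h, inv_inv, ← h] at h5
      · have h4 : b ∈ K := IntermediateField.subset_adjoin Ω _ ⟨hb, hbe⟩
        exact IntermediateField.algebraMap_mem (IntermediateField.adjoin K {e'}) ⟨b, h4⟩
    exact h3 hy
  have halg : Algebra.IsAlgebraic (IntermediateField.adjoin K {e'}) F := by
    let f : IntermediateField.adjoin Ω B →+* IntermediateField.adjoin K {e'} :=
      { toFun := fun y => ⟨y.1, hle _ y.2⟩
        map_one' := rfl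
        map_mul' := fun _ _ => rfl
        map_zero' := rfl
        map_add' := fun _ _ => rfl }
    exact Algebra.IsAlgebraic.ringHom_of_comp_eq (R := IntermediateField.adjoin Ω B) (A := F)
      f (RingHom.id F) (fun a b hab => Subtype.ext (congrArg (fun z : IntermediateField.adjoin K {e'} => (z : F)) hab))
      Function.surjective_id rfl
  obtain ⟨v, h2, h3, h4⟩ := exists_val e' htr' halg s (fun L hL hx => hs L (fun a => by
    have := hL (algebraMap Ω K a)
    exact this) hx)
  refine ⟨v, h2, h3, fun b hb hbe => ?_⟩
  have hbK : b ∈ K := IntermediateField.subset_adjoin Ω _ ⟨hb, hbe⟩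
  have hb0 : b ≠ 0 := by
    have := hB.1.ne_zero ⟨b, hb⟩
    exact this
  exact h4 ⟨b, hbK⟩ (fun h => hb0 (congrArg Subtype.val h))

end Pool.Agent.N302.MB
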