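import Mathlib
import Pool.Agent.N302.MB.UE
import Pool.Agent.N302.MB.Val

/-!
# The generic point of an infinite set of points at which given polynomials are units
-/

set_option autoImplicit false

namespace Pool.Agent.N302.MB

open MvPolynomial Pool.Agent.Helper259.AbsHt

section

variable {σ : Type}

/-- the ideal of the polynomials which vanish on `Z` -/
def vI (Z : Set (σ → Qbar)) : Ideal (MvPolynomial σ Qbar) where
  carrier := {p | ∀ z ∈ Z, eval z p = 0}
  add_mem' {a b} ha hb z hz := by rw [map_add, ha z hz, hb z hz, add_zero]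
  zero_mem' z _ := map_zero _
  smul_mem' c {a} ha z hz := by rw [smul_eq_mul, map_mul, ha z hz, mul_zero]

theorem mem_vI {Z : Set (σ → Qbar)} {p : MvPolynomial σ Qbar} :
    p ∈ vI Z ↔ ∀ z ∈ Z, eval z p = 0 := Iff.rfl

theorem exists_min [Finite σ] (Y : Set (σ → Qbar)) (hY : Y.Infinite) :
    ∃ Z ⊆ Y, Z.Infinite ∧ ∀ Z' ⊆ Z, Z'.Infinite → vI Z' ≤ vI Z := by
  obtain ⟨I, ⟨Z, hZY, hZ, rfl⟩, hmax⟩ := WellFounded.has_min
    (wellFounded_gt : WellFounded (α := Ideal (MvPolynomial σ Qbar)) (· > ·))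
    {I | ∃ Z ⊆ Y, Z.Infinite ∧ vI Z = I} ⟨_, Y, subset_rfl, hY, rfl⟩
  refine ⟨Z, hZY, hZ, fun Z' hZ' hinf => ?_⟩
  have h1 : vI Z ≤ vI Z' := fun p hp z hz => hp z (hZ' hz)
  have h2 := hmax (vI Z') ⟨Z', hZ'.trans hZY, hinf, rfl⟩
  by_contra h3
  exact h2 (lt_of_le_not_ge h1 h3)

theorem vI_prime (Z : Set (σ → Qbar)) (hZ : Z.Infinite)
    (hmin : ∀ Z' ⊆ Z, Z'.Infinite → vI Z' ≤ vI Z) : (vI Z).IsPrime := by
  constructor
  · rw [Ideal.ne_top_iff_one]
    intro h
    obtain ⟨z, hz⟩ := hZ.nonempty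
    have := h z hz
    rw [map_one] at this
    exact one_ne_zero this
  · intro p q hpq
    by_cases h : {z ∈ Z | eval z p = 0}.Infinite
    · exact Or.inl (hmin _ (Set.sep_subset _ _) h fun z hz => hz.2)
    · right
      have h2 : {z ∈ Z | eval z q = 0}.Infinite := by
        intro hf
        apply hZ
        rw [Set.not_infinite] at h
        refine (h.union hf).subset fun z hz => ?_
        have h3 := hpq z hz
        rw [map_mul, mul_eq_zero] at h3
        exact h3.imp (fun h => ⟨hz, h⟩) fun h => ⟨hz, h⟩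
      exact hmin _ (Set.sep_subset _ _) h2 fun z hz => hz.2

/-- the generic point -/
theorem exists_field (Z : Set (σ → Qbar)) (hp : (vI Z).IsPrime) :
    ∃ (F : Type) (_ : Field F) (_ : Algebra Qbar F) (x : σ → F),
      (∀ p : MvPolynomial σ Qbar, aeval x p = 0 ↔ ∀ z ∈ Z, eval z p = 0) ∧
      ∀ L : Subfield F, (∀ a : Qbar, algebraMap Qbar F a ∈ L) → (∀ s, x s ∈ L) → L = ⊤ := by
  have : IsDomain (MvPolynomial σ Qbar ⧸ vI Z) := Ideal.Quotient.isDomain (vI Z)
  let F := FractionRing (MvPolynomial σ Qbar ⧸ vI Z)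
  let x : σ → F := fun s => algebraMap (MvPolynomial σ Qbar ⧸ vI Z) F (Ideal.Quotient.mk _ (X s))
  have hx : ∀ p : MvPolynomial σ Qbar, aeval x p =
      algebraMap (MvPolynomial σ Qbar ⧸ vI Z) F (Ideal.Quotient.mk _ p) := by
    intro p
    induction p using MvPolynomial.induction_on with
    | C a =>
      rw [aeval_C]
      rfl
    | add p q hp hq => rw [map_add, map_add, map_add, hp, hq]
    | mul_X p s hp => rw [map_mul, map_mul, map_mul, hp, aeval_X]
  refine ⟨F, inferInstance, inferInstance, x, fun p => ?_, fun L hL hxL => ?_⟩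
  · rw [hx, FaithfulSMul.algebraMap_eq_zero_iff, Ideal.Quotient.eq_zero_iff_mem]
    rfl
  · have h1 : ∀ p : MvPolynomial σ Qbar, aeval x p ∈ L := by
      intro p
      induction p using MvPolynomial.induction_on with
      | C a =>
        rw [aeval_C]
        exact hL a
      | add p q hp hq =>
        rw [map_add]
        exact add_mem hp hq
      | mul_X p s hp =>
        rw [map_mul, aeval_X]
        exact mul_mem hp (hxL s)
    rw [eq_top_iff]
    intro y _
    obtain ⟨a, b, -, rfl⟩ := IsFractionRing.div_surjective (A := MvPolynomial σ Qbar ⧸ vI Z) y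
    obtain ⟨a, rfl⟩ := Ideal.Quotient.mk_surjective a
    obtain ⟨b, rfl⟩ := Ideal.Quotient.mk_surjective b
    rw [← hx, ← hx]
    exact div_mem (h1 a) (h1 b)

/-- **Polynomial relations between units come from multiplicative relations.** -/
theorem relation (Z : Set (σ → Qbar)) (hZ : Z.Infinite)
    (hmin : ∀ Z' ⊆ Z, Z'.Infinite → vI Z' ≤ vI Z) {F : Type} [Field F] [Algebra Qbar F] (x : σ → F)
    (hx : ∀ p : MvPolynomial σ Qbar, aeval x p = 0 ↔ ∀ z ∈ Z, eval z p = 0)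
    {ι : Type} [Fintype ι] (f : ι → MvPolynomial σ Qbar) (Γ : Subgroup Qbarˣ) (hΓ : Γ.FG)
    (hf : ∀ z ∈ Z, ∀ i, ∃ u ∈ Γ, ((u : Qbarˣ) : Qbar) = eval z (f i)) (P : MvPolynomial ι Qbar)
    (hP : P ≠ 0) (h0 : aeval (fun i => aeval x (f i)) P = 0) :
    ∃ w w' : ι →₀ ℕ, w ≠ w' ∧ w.support ⊆ P.vars ∧ w'.support ⊆ P.vars ∧ ∃ c : Qbar,
      ∏ i, (aeval x (f i)) ^ (w i) = algebraMap Qbar F c * ∏ i, (aeval x (f i)) ^ (w' i) := by
  classical
  have hne : Nonempty P.support := by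
    obtain ⟨w, hw⟩ := (support_nonempty (p := P)).2 hP
    exact ⟨⟨w, hw⟩⟩
  let c : P.support → Qbarˣ := fun w => Units.mk0 (coeff w.1 P) (mem_support_iff.1 w.2)
  obtain ⟨R, hR, hR2⟩ := partner Γ hΓ c
  have h1 : ∀ z : Z, ∃ t : P.support × P.support × R, t.1 ≠ t.2.1 ∧
      ∏ i, (eval z.1 (f i)) ^ (t.1.1 i) = t.2.2.1 * ∏ i, (eval z.1 (f i)) ^ (t.2.1.1 i) := by
    intro z
    choose u hu1 hu2 using hf z.1 z.2
    have h2 : ∀ w : ι →₀ ℕ, ((∏ i, u i ^ w i : Qbarˣ) : Qbar) = ∏ i, (eval z.1 (f i)) ^ w i := by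
      intro w
      rw [Units.coe_prod]
      refine Finset.prod_congr rfl fun i _ => ?_
      rw [Units.val_pow_eq_pow_val, hu2]
    obtain ⟨w, w', hww, hr⟩ := hR2 (fun w => ∏ i, u i ^ w.1 i)
      (fun w => Subgroup.prod_mem _ fun i _ => Subgroup.pow_mem _ (hu1 i) _) (by
        have h3 : aeval x (bind₁ f P) = 0 := by rw [aeval_bind₁, h0]
        have h4 := (hx _).1 h3 z.1 z.2
        have h5 : eval z.1 (bind₁ f P) = eval (fun i => eval z.1 (f i)) P := by
          rw [← coe_aeval_eq_eval, ← coe_aeval_eq_eval]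
          simp only [RingHom.coe_coe]
          rw [aeval_bind₁]
        rw [h5, eval_eq'] at h4
        rw [← h4, ← Finset.sum_coe_sort P.support]
        refine Finset.sum_congr rfl fun w _ => ?_
        rw [h2]
        rfl)
    refine ⟨(w, w', ⟨_, hr⟩), hww, ?_⟩
    show _ = ((_ : Qbar) / _) * _
    rw [← h2, ← h2, div_mul_cancel₀ _ (Units.ne_zero _)]
  choose t ht1 ht2 using h1
  have hZi : Infinite Z := hZ.to_subtype
  have hRf : Finite R := hR
  obtain ⟨⟨w, w', ρ⟩, hinf⟩ := Finite.exists_infinite_fiber t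
  obtain ⟨z0⟩ := hinf.nonempty
  have hww : w ≠ w' := by
    have := ht1 z0.1
    have h3 : t z0.1 = (w, w', ρ) := z0.2
    rwa [h3] at this
  have hZ' : (Subtype.val '' (t ⁻¹' {(w, w', ρ)}) : Set (σ → Qbar)).Infinite :=
    (Set.infinite_coe_iff.1 hinf).image Subtype.val_injective.injOn
  have hmem := hmin _ (by
    rintro _ ⟨z, -, rfl⟩
    exact z.2) hZ'
  have hq : (∏ i, (f i) ^ (w.1 i) - C ρ.1 * ∏ i, (f i) ^ (w'.1 i)) ∈
      vI (Subtype.val '' (t ⁻¹' {(w, w', ρ)})) := by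
    rintro _ ⟨z, hz, rfl⟩
    have h3 : t z = (w, w', ρ) := hz
    have h4 := ht2 z
    rw [h3] at h4
    rw [map_sub, map_mul, eval_C, map_prod, map_prod, sub_eq_zero]
    simp only [map_pow]
    exact h4
  have h5 := (hx _).2 (hmem hq)
  rw [map_sub, map_mul, map_prod, map_prod, sub_eq_zero] at h5
  simp only [map_pow] at h5
  refine ⟨w.1, w'.1, fun h => hww (Subtype.ext h), ?_, ?_, ρ.1, ?_⟩
  · intro i hi
    exact (mem_vars_iff_mem_support i).2 ⟨w.1, w.2, hi⟩
  · intro i hi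
    exact (mem_vars_iff_mem_support i).2 ⟨w'.1, w'.2, hi⟩
  · rw [h5]
    congr 1
    exact aeval_C x ρ.1

end

end Pool.Agent.N302.MB
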