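import Mathlib
import Pool.Agent.N302.MB.Gen

/-!
# Two valuations of the generic point with opposite values at the units
-/

set_option autoImplicit false

namespace Pool.Agent.N302.MB

open MvPolynomial Pool.Agent.Helper259.AbsHt

section

variable {F : Type} [Field F] {V : F → ℤ}

theorem IsVal.one (hV : IsVal V) : V 1 = 0 := by
  have := hV.mul 1 1 one_ne_zero one_ne_zero
  rw [mul_one] at this
  omega

theorem IsVal.pow (hV : IsVal V) (a : F) (ha : a ≠ 0) (n : ℕ) : V (a ^ n) = n * V a := by
  induction n with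
  | zero => simp [hV.one]
  | succ n ih =>
    rw [pow_succ, hV.mul _ _ (pow_ne_zero _ ha) ha, ih]
    push_cast
    ring

theorem IsVal.inv (hV : IsVal V) (a : F) (ha : a ≠ 0) : V a⁻¹ = -V a := by
  have := hV.mul a a⁻¹ ha (inv_ne_zero ha)
  rw [mul_inv_cancel₀ ha, hV.one] at this
  omega

theorem IsVal.prod (hV : IsVal V) {ι : Type} (s : Finset ι) (g : ι → F) (hg : ∀ i ∈ s, g i ≠ 0) :
    V (∏ i ∈ s, g i) = ∑ i ∈ s, V (g i) := by
  classical
  induction s using Finset.induction_on with
  | empty => simp [hV.one]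
  | insert a s ha ih =>
    rw [Finset.prod_insert ha, Finset.sum_insert ha, hV.mul _ _ (hg a (by simp))
      (Finset.prod_ne_zero_iff.2 fun i hi => hg i (by simp [hi])), ih fun i hi => hg i (by simp [hi])]

theorem IsVal.smul (hV : IsVal V) (k : ℤ) (hk : 0 ≤ k) : IsVal fun a => k * V a := by
  constructor
  · intro a b ha hb
    show k * V (a * b) = _
    rw [hV.mul a b ha hb]
    ring
  · intro a b ha hb hab
    have h1 := hV.add a b ha hb hab
    show min (k * V a) (k * V b) ≤ k * V (a + b)
    rcases le_total (V a) (V b) with h | h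
    · rw [min_eq_left h] at h1
      exact (min_le_left _ _).trans (mul_le_mul_of_nonneg_left h1 hk)
    · rw [min_eq_right h] at h1
      exact (min_le_right _ _).trans (mul_le_mul_of_nonneg_left h1 hk)

/-- constants have valuation zero -/
theorem IsVal.const [Algebra Qbar F] (hV : IsVal V) (c : Qbar) (hc : c ≠ 0) :
    V (algebraMap Qbar F c) = 0 := by
  obtain ⟨d, hd⟩ := IsAlgClosed.exists_pow_nat_eq c
    (n := (V (algebraMap Qbar F c)).natAbs + 1) (by omega)
  have hd0 : d ≠ 0 := by
    rintro rfl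
    rw [zero_pow (by omega)] at hd
    exact hc hd.symm
  have h1 : V (algebraMap Qbar F c) = ((V (algebraMap Qbar F c)).natAbs + 1 : ℕ) *
      V (algebraMap Qbar F d) := by
    rw [← hV.pow _ ((map_ne_zero _).2 hd0), ← map_pow, hd]
  set a := V (algebraMap Qbar F c)
  set b := V (algebraMap Qbar F d)
  by_contra ha
  have hb : b ≠ 0 := by
    intro hb
    rw [hb, mul_zero] at h1
    exact ha h1
  have h2 : a.natAbs = (a.natAbs + 1) * b.natAbs := by
    have := congrArg Int.natAbs h1
    rwa [Int.natAbs_mul, Int.natAbs_natCast] at this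
  have h3 : 0 < b.natAbs := Int.natAbs_pos.2 hb
  have h4 := Nat.le_mul_of_pos_right (a.natAbs + 1) h3
  omega

/-- a multiplicative relation between elements implies one between the values -/
theorem IsVal.rel [Algebra Qbar F] (hV : IsVal V) {ι : Type} [Fintype ι] (u : ι → F)
    (hu : ∀ i, u i ≠ 0) (w w' : ι → ℕ) (c : Qbar)
    (h : ∏ i, u i ^ w i = algebraMap Qbar F c * ∏ i, u i ^ w' i) :
    ∑ i, ((w i : ℤ) - w' i) * V (u i) = 0 := by
  have hc : c ≠ 0 := by
    rintro rfl
    rw [map_zero, zero_mul, Finset.prod_eq_zero_iff] at h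
    obtain ⟨i, -, hi⟩ := h
    exact pow_ne_zero _ (hu i) hi
  have h1 : ∀ w : ι → ℕ, V (∏ i, u i ^ w i) = ∑ i, (w i : ℤ) * V (u i) := by
    intro w
    rw [hV.prod _ _ fun i _ => pow_ne_zero _ (hu i)]
    exact Finset.sum_congr rfl fun i _ => hV.pow _ (hu i) _
  have h2 := congrArg V h
  rw [hV.mul _ _ ((map_ne_zero _).2 hc) (Finset.prod_ne_zero_iff.2 fun i _ =>
    pow_ne_zero _ (hu i)), hV.const c hc, zero_add, h1, h1] at h2
  simp only [sub_mul, Finset.sum_sub_distrib]
  omega

end

/-- **The generic point.** -/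
theorem generic {σ ι : Type} [Fintype σ] [Fintype ι] (Y : Set (σ → Qbar)) (hY : Y.Infinite)
    (Γ : Subgroup Qbarˣ) (hΓ : Γ.FG) (f : ι → MvPolynomial σ Qbar)
    (hf : ∀ y ∈ Y, ∀ i, ∃ u ∈ Γ, ((u : Qbarˣ) : Qbar) = eval y (f i)) :
    ∃ (F : Type) (_ : Field F) (_ : Algebra Qbar F) (x : σ → F) (V V' : F → ℤ),
      IsVal V ∧ IsVal V' ∧
      (∀ g : MvPolynomial σ Qbar, (∀ y ∈ Y, eval y g = 0) → aeval x g = 0) ∧
      (∀ g : MvPolynomial σ Qbar, (∀ y ∈ Y, eval y g ≠ 0) → aeval x g ≠ 0) ∧
      (∀ i, V (aeval x (f i)) + V' (aeval x (f i)) = 0) ∧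
      ((∃ i, V (aeval x (f i)) ≠ 0) ∨ ∃ s, x s ≠ 0 ∧ V (x s) < 0) := by
  classical
  obtain ⟨Z, hZY, hZ, hmin⟩ := exists_min Y hY
  obtain ⟨F, iF, iA, x, hx, hgen⟩ := exists_field Z (vI_prime Z hZ hmin)
  have hcz : CharZero F := charZero_of_injective_algebraMap (algebraMap Qbar F).injective
  have hg0 : ∀ g : MvPolynomial σ Qbar, (∀ y ∈ Y, eval y g = 0) → aeval x g = 0 :=
    fun g hg => (hx g).2 fun z hz => hg z (hZY hz)
  have hg1 : ∀ g : MvPolynomial σ Qbar, (∀ y ∈ Y, eval y g ≠ 0) → aeval x g ≠ 0 := by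
    intro g hg h
    obtain ⟨z, hz⟩ := hZ.nonempty
    exact hg z (hZY hz) ((hx g).1 h z hz)
  set u : ι → F := fun i => aeval x (f i) with hu
  have hu0 : ∀ i, u i ≠ 0 := fun i => hg1 _ fun y hy => by
    obtain ⟨v, -, hv⟩ := hf y hy i
    rw [← hv]
    exact v.ne_zero
  have hs : ∀ L : Subfield F, (∀ a : Qbar, algebraMap Qbar F a ∈ L) →
      (∀ y ∈ Finset.univ.image x, y ∈ L) → L = ⊤ := fun L h1 h2 =>
    hgen L h1 fun s => h2 _ (Finset.mem_image_of_mem x (Finset.mem_univ s))
  -- a maximal algebraically independent set of the units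
  obtain ⟨T, hT, hTmax⟩ := Finset.exists_max_image
    (Finset.univ.filter fun T : Finset ι => AlgebraicIndependent Qbar fun i : T => u i)
    Finset.card ⟨∅, by
      rw [Finset.mem_filter]
      refine ⟨Finset.mem_univ _, ?_⟩
      rw [algebraicIndependent_empty_type_iff]
      exact (algebraMap Qbar F).injective⟩
  have hTi : AlgebraicIndependent Qbar fun i : T => u i := (Finset.mem_filter.1 hT).2
  have hrel : ∀ i ∉ T, ∃ w w' : ι → ℕ, w i ≠ w' i ∧ (∀ j, j ≠ i → j ∉ T → w j = 0 ∧ w' j = 0) ∧
      ∃ c : Qbar, ∏ j, u j ^ w j = algebraMap Qbar F c * ∏ j, u j ^ w' j := by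
    intro i hi
    have h1 : ¬ AlgebraicIndependent Qbar fun j : {x // x ∈ insert i T} => u j.1 := by
      intro h
      have h2 := hTmax (insert i T) (Finset.mem_filter.2 ⟨Finset.mem_univ _, h⟩)
      rw [Finset.card_insert_of_notMem hi] at h2
      omega
    rw [algebraicIndependent_iff] at h1
    push Not at h1
    obtain ⟨P, hP0, hP⟩ := h1
    have hP' : rename (Subtype.val : {x // x ∈ insert i T} → ι) P ≠ 0 := fun h =>
      hP (rename_injective _ Subtype.val_injective (by rw [h, map_zero]))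
    obtain ⟨w, w', hww, hw, hw', c, hc⟩ := relation Z hZ hmin x hx f Γ hΓ
      (fun z hz => hf z (hZY hz)) _ hP' (by
        rw [aeval_rename]
        exact hP0)
    have hvars : ∀ j, j ∈ (rename (Subtype.val : {x // x ∈ insert i T} → ι) P).vars →
        j = i ∨ j ∈ T := by
      intro j hj
      have h2 := vars_rename (Subtype.val : {x // x ∈ insert i T} → ι) P hj
      rw [Finset.mem_image] at h2
      obtain ⟨a, -, rfl⟩ := h2
      exact Finset.mem_insert.1 a.2
    have hz : ∀ v : ι →₀ ℕ, v.support ⊆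
        (rename (Subtype.val : {x // x ∈ insert i T} → ι) P).vars → ∀ j, j ≠ i → j ∉ T →
          v j = 0 := by
      intro v hv j hji hjT
      by_contra h
      rcases hvars j (hv (Finsupp.mem_support_iff.2 h)) with h | h
      · exact hji h
      · exact hjT h
    refine ⟨w, w', ?_, fun j hji hjT => ⟨hz w hw j hji hjT, hz w' hw' j hji hjT⟩, c, hc⟩
    intro heq
    -- cancel the factor `u i`
    have hprod : ∀ v : ι →₀ ℕ, v.support ⊆
        (rename (Subtype.val : {x // x ∈ insert i T} → ι) P).vars →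
          ∏ j, u j ^ v j = u i ^ v i * ∏ j : T, u j ^ v j := by
      intro v hv
      have h3 : ∏ j, u j ^ v j = ∏ j ∈ insert i T, u j ^ v j := by
        refine (Finset.prod_subset (Finset.subset_univ _) fun j _ hj => ?_).symm
        rw [Finset.mem_insert, not_or] at hj
        rw [hz v hv j hj.1 hj.2, pow_zero]
      rw [h3, Finset.prod_insert hi, ← Finset.prod_coe_sort T]
    have hc' : ∏ j, u j ^ w j = algebraMap Qbar F c * ∏ j, u j ^ w' j := hc
    rw [hprod w hw, hprod w' hw', heq, mul_left_comm] at hc'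
    have h4 := mul_left_cancel₀ (pow_ne_zero _ (hu0 i)) hc'
    have h5 : aeval (fun j : T => u j)
        (∏ j : T, (X j : MvPolynomial T Qbar) ^ w j - C c * ∏ j : T, X j ^ w' j) = 0 := by
      rw [map_sub, map_mul, map_prod, map_prod, aeval_C]
      simp only [map_pow, aeval_X]
      rw [h4, sub_self]
    have h6 := (algebraicIndependent_iff.1 hTi) _ h5
    have hmon : ∀ v : ι →₀ ℕ, ∏ j : T, (X j : MvPolynomial T Qbar) ^ v j =
        monomial (Finsupp.equivFunOnFinite.symm fun j : T => v j) 1 := by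
      intro v
      rw [monomial_eq, C_1, one_mul, Finsupp.prod_fintype _ _ (fun j => pow_zero _)]
      rfl
    rw [hmon, hmon, C_mul_monomial, mul_one] at h6
    have h7 : (Finsupp.equivFunOnFinite.symm fun j : T => w j) =
        Finsupp.equivFunOnFinite.symm fun j : T => w' j := by
      by_contra hne
      have h8 := congrArg (coeff (Finsupp.equivFunOnFinite.symm fun j : T => w j)) h6
      rw [coeff_sub, coeff_monomial, coeff_monomial, if_pos rfl, if_neg (Ne.symm hne), sub_zero,
        coeff_zero] at h8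
      exact one_ne_zero h8
    apply hww
    ext j
    by_cases hji : j = i
    · rw [hji, heq]
    · by_cases hjT : j ∈ T
      · have := congrFun (congrArg DFunLike.coe h7) ⟨j, hjT⟩
        exact this
      · rw [hz w hw j hji hjT, hz w' hw' j hji hjT]
  -- the values at the units are determined by those at the members of `T`
  have hval : ∀ V V' : F → ℤ, IsVal V → IsVal V' → (∀ t ∈ T, V (u t) + V' (u t) = 0) →
      ∀ i, V (u i) + V' (u i) = 0 := by
    intro V V' hV hV' hVT i
    by_cases hi : i ∈ T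
    · exact hVT i hi
    obtain ⟨w, w', hne, hz, c, hc⟩ := hrel i hi
    have h1 := hV.rel u hu0 w w' c hc
    have h2 := hV'.rel u hu0 w w' c hc
    have h3 : ∑ j, ((w j : ℤ) - w' j) * (V (u j) + V' (u j)) = 0 := by
      simp only [mul_add, Finset.sum_add_distrib]
      omega
    rw [Finset.sum_eq_single i] at h3
    · rcases mul_eq_zero.1 h3 with h | h
      · exact absurd (by omega : w i = w' i) hne
      · exact h
    · intro j _ hji
      by_cases hj : j ∈ T
      · rw [hVT j hj, mul_zero]
      · rw [(hz j hji hj).1, (hz j hji hj).2]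
        simp
    · intro h
      exact absurd (Finset.mem_univ i) h
  by_cases hTe : T = ∅
  · -- all units are constant
    have hV0 : ∀ V : F → ℤ, IsVal V → ∀ i, V (u i) = 0 := by
      intro V hV i
      have := hval V V hV hV (by rw [hTe]; simp) i
      omega
    have hex : ∃ s, Transcendental Qbar (x s) := by
      by_contra hcon
      push Not at hcon
      have h1 : ∀ s, ∃ a : Qbar, algebraMap Qbar F a = x s := by
        intro s
        have h2 : IsAlgebraic Qbar (x s) := by
          have := hcon s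
          rwa [Transcendental, not_not] at this
        have h3 : (minpoly Qbar (x s)).degree = 1 :=
          IsAlgClosed.degree_eq_one_of_irreducible _ (minpoly.irreducible h2.isIntegral)
        exact minpoly.mem_range_of_degree_eq_one Qbar (x s) h3
      choose a ha using h1
      apply hZ
      refine (Set.finite_singleton a).subset fun z hz => ?_
      rw [Set.mem_singleton_iff]
      funext s
      have h4 : aeval x (X s - C (a s)) = 0 := by
        rw [map_sub, aeval_X, aeval_C, ha, sub_self]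
      have h5 := (hx _).1 h4 z hz
      rw [map_sub, eval_X, eval_C, sub_eq_zero] at h5
      exact h5
    obtain ⟨s, hs1⟩ := hex
    have hxs0 : x s ≠ 0 := fun h => hs1 (h ▸ isAlgebraic_zero)
    obtain ⟨B, hsB, hB⟩ := exists_isTranscendenceBasis_superset (R := Qbar) (s := {x s}) (by
      rw [AlgebraicIndepOn, algebraicIndependent_unique_type_iff]
      exact hs1)
    obtain ⟨V, hV, hV1, -⟩ := exists_val_basis B hB (x s) (hsB rfl) _ hs (x s)⁻¹ (Or.inr rfl)
    refine ⟨F, iF, iA, x, V, V, hV, hV, hg0, hg1, fun i => ?_, Or.inr ⟨s, hxs0, ?_⟩⟩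
    · have := hV0 V hV i
      show V (u i) + V (u i) = 0
      omega
    · rw [hV.inv _ hxs0] at hV1
      omega
  · obtain ⟨t0, ht0⟩ := Finset.nonempty_iff_ne_empty.2 hTe
    have hind : AlgebraicIndepOn Qbar (id : F → F) (Set.range fun i : T => u i) :=
      hTi.to_subtype_range
    obtain ⟨B, hsB, hB⟩ := exists_isTranscendenceBasis_superset hind
    have hB0 : ∀ t ∈ T, u t ∈ B := fun t ht => hsB ⟨⟨t, ht⟩, rfl⟩
    obtain ⟨V0, hV0, hV01, hV02⟩ := exists_val_basis B hB (u t0) (hB0 t0 ht0) _ hs (u t0)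
      (Or.inl rfl)
    obtain ⟨V1, hV1, hV11, hV12⟩ := exists_val_basis B hB (u t0) (hB0 t0 ht0) _ hs (u t0)⁻¹
      (Or.inr rfl)
    rw [hV1.inv _ (hu0 t0)] at hV11
    refine ⟨F, iF, iA, x, fun a => (-V1 (u t0)) * V0 a, fun a => V0 (u t0) * V1 a,
      hV0.smul _ hV11.le, hV1.smul _ hV01.le, hg0, hg1,
      hval _ _ (hV0.smul _ hV11.le) (hV1.smul _ hV01.le) ?_, Or.inl ⟨t0, ?_⟩⟩
    · intro t ht
      show (-V1 (u t0)) * V0 (u t) + V0 (u t0) * V1 (u t) = 0
      by_cases htt : u t = u t0
      · rw [htt]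
        ring
      · rw [hV02 _ (hB0 t ht) htt, hV12 _ (hB0 t ht) htt]
        ring
    · show (-V1 (u t0)) * V0 (u t0) ≠ 0
      exact (mul_pos hV11 hV01).ne'

end Pool.Agent.N302.MB
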