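import Mathlib

/-!
# Ultrametric kernels are positive semidefinite
-/

set_option autoImplicit false

namespace Pool.Agent.N302.MB

open Finset

section

variable {α : Type} [Fintype α] [DecidableEq α]

/-- The number of elements of a class. -/
def cls (r : α → α → Prop) [DecidableRel r] (l : α) : ℚ := ((univ.filter fun j => r l j).card : ℚ)

omit [DecidableEq α] in
/-- for a partial equivalence relation -/
theorem cls_sum (r : α → α → Prop) [DecidableRel r] (hs : ∀ i j, r i j → r j i)
    (ht : ∀ i j k, r i j → r j k → r i k) (i : α) (hi : r i i) :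
    ∑ l, (if r l i then (cls r l)⁻¹ else 0) = 1 := by
  have h1 : ∀ l, (if r l i then (cls r l)⁻¹ else 0) = if r i l then (cls r i)⁻¹ else 0 := by
    intro l
    by_cases h : r l i
    · have h2 : cls r l = cls r i := by
        unfold cls
        congr 2
        ext j
        simp only [mem_filter, mem_univ, true_and]
        exact ⟨fun h' => ht _ _ _ (hs _ _ h) h', fun h' => ht _ _ _ h h'⟩
      rw [if_pos h, if_pos (hs _ _ h), h2]
    · rw [if_neg h, if_neg fun h' => h (hs _ _ h')]
  rw [Finset.sum_congr rfl fun l _ => h1 l, ← Finset.sum_filter, Finset.sum_const, nsmul_eq_mul]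
  have h0 : cls r i ≠ 0 := by
    unfold cls
    have : 0 < (univ.filter fun j => r i j).card := Finset.card_pos.2 ⟨i, by simp [hi]⟩
    positivity
  exact mul_inv_cancel₀ h0

omit [DecidableEq α] in
theorem sum3 {β : Type} (s : Finset β) (F : β → α → α → ℚ) :
    ∑ l ∈ s, ∑ i, ∑ j, F l i j = ∑ i, ∑ j, ∑ l ∈ s, F l i j := by
  rw [Finset.sum_comm]
  exact Finset.sum_congr rfl fun i _ => Finset.sum_comm

theorem per_psd (r : α → α → Prop) [DecidableRel r] (hs : ∀ i j, r i j → r j i)
    (ht : ∀ i j k, r i j → r j k → r i k) (v : α → ℚ) :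
    0 ≤ ∑ i, ∑ j, (if r i j then (1 : ℚ) else 0) * (v i * v j) := by
  have key : ∑ i, ∑ j, (if r i j then (1 : ℚ) else 0) * (v i * v j) =
      ∑ l, (cls r l)⁻¹ * (∑ i, if r l i then v i else 0) ^ 2 := by
    have h1 : ∀ l, (cls r l)⁻¹ * (∑ i, if r l i then v i else 0) ^ 2 =
        ∑ i, ∑ j, (if r l i ∧ r l j then (cls r l)⁻¹ else 0) * (v i * v j) := by
      intro l
      rw [pow_two, Finset.sum_mul_sum, Finset.mul_sum]
      refine Finset.sum_congr rfl fun i _ => ?_
      rw [Finset.mul_sum]
      refine Finset.sum_congr rfl fun j _ => ?_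
      by_cases hi : r l i <;> by_cases hj : r l j <;> simp [hi, hj]
    rw [Finset.sum_congr rfl fun l _ => h1 l, sum3]
    refine Finset.sum_congr rfl fun i _ => ?_
    refine Finset.sum_congr rfl fun j _ => ?_
    rw [← Finset.sum_mul]
    congr 1
    by_cases hij : r i j
    · rw [if_pos hij, ← cls_sum r hs ht i (ht _ _ _ hij (hs _ _ hij))]
      refine Finset.sum_congr rfl fun l _ => ?_
      by_cases hl : r l i
      · rw [if_pos hl, if_pos ⟨hl, ht _ _ _ hl hij⟩]
      · rw [if_neg hl, if_neg fun h => hl h.1]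
    · rw [if_neg hij]
      refine (Finset.sum_eq_zero fun l _ => if_neg fun h => hij ?_).symm
      exact ht _ _ _ (hs _ _ h.1) h.2
  rw [key]
  refine Finset.sum_nonneg fun l _ => mul_nonneg (inv_nonneg.2 ?_) (sq_nonneg _)
  unfold cls
  positivity

/-- Ultrametric kernels are positive semidefinite. -/
theorem ker_psd (g : α → α → ℤ) (hs : ∀ i j, g i j = g j i) (hd : ∀ i j, g i j ≤ g i i)
    (hu : ∀ i j k, min (g i j) (g j k) ≤ g i k) (h0 : ∀ i j, 0 ≤ g i j) (v : α → ℚ) :
    0 ≤ ∑ i, ∑ j, (g i j : ℚ) * (v i * v j) := by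
  classical
  let T : ℕ := ∑ i, (g i i).toNat
  have hT : ∀ i j, g i j ≤ T := by
    intro i j
    have h1 : (g i i).toNat ≤ T := Finset.single_le_sum (f := fun i => (g i i).toNat)
      (fun _ _ => Nat.zero_le _) (mem_univ i)
    have := hd i j
    omega
  have h1 : ∀ i j, (g i j : ℚ) = ∑ t ∈ range T, if (t : ℤ) < g i j then (1 : ℚ) else 0 := by
    intro i j
    rw [← Finset.sum_filter, Finset.sum_const, nsmul_eq_mul, mul_one]
    have h2 : ((range T).filter fun t : ℕ => (t : ℤ) < g i j) = range (g i j).toNat := by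
      ext t
      simp only [mem_filter, mem_range]
      have := hT i j
      omega
    rw [h2, card_range]
    have : ((g i j).toNat : ℤ) = g i j := Int.toNat_of_nonneg (h0 i j)
    exact_mod_cast this.symm
  have h2 : ∑ i, ∑ j, (g i j : ℚ) * (v i * v j) =
      ∑ t ∈ range T, ∑ i, ∑ j, (if (t : ℤ) < g i j then (1 : ℚ) else 0) * (v i * v j) := by
    rw [sum3]
    refine Finset.sum_congr rfl fun i _ => ?_
    refine Finset.sum_congr rfl fun j _ => ?_
    rw [← Finset.sum_mul, ← h1]
  rw [h2]
  refine Finset.sum_nonneg fun t _ => per_psd (fun i j => (t : ℤ) < g i j) ?_ ?_ v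
  · intro i j h
    show (t : ℤ) < g j i
    rw [hs]
    exact h
  · intro i j k h h'
    have := hu i j k
    show (t : ℤ) < g i k
    have h : (t : ℤ) < g i j := h
    have h' : (t : ℤ) < g j k := h'
    omega

/-- **The main inequality.** If the classes of the kernel `g p` have less than half of the elements,
the sum of all values of `g p` is at most the sum of the `a i`. -/
theorem main_ineq {ι : Type} [Fintype ι] [DecidableEq ι] (g : ι → α → α → ℤ)
    (hs : ∀ p i j, g p i j = g p j i) (hd : ∀ p i j, g p i j ≤ g p i i)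
    (hu : ∀ p i j k, min (g p i j) (g p j k) ≤ g p i k) (h0 : ∀ p i j, 0 ≤ g p i j) (b : α → ℚ)
    (hb : ∀ i j, i ≠ j → ∑ q, (g q i j : ℚ) = b i + b j) [Nonempty α] (p : ι)
    (hp : ∀ i, 2 * (univ.filter fun j => i = j ∨ 0 < g p i j).card < Fintype.card α) :
    ∑ i, ∑ j, (g p i j : ℚ) ≤ ∑ i, (∑ q, (g q i i : ℚ) - 2 * b i) := by
  classical
  set a : α → ℚ := fun i => ∑ q, (g q i i : ℚ) - 2 * b i with ha
  set r : α → α → Prop := fun i j => i = j ∨ 0 < g p i j with hr
  have hrs : ∀ i j, r i j → r j i := by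
    rintro i j (h | h)
    · exact Or.inl h.symm
    · exact Or.inr (by rw [hs]; exact h)
  have hrt : ∀ i j k, r i j → r j k → r i k := by
    rintro i j k (rfl | h) (rfl | h')
    · exact Or.inl rfl
    · exact Or.inr h'
    · exact Or.inr h
    · refine Or.inr ?_
      have := hu p i j k
      omega
  have hrr : ∀ i, r i i := fun i => Or.inl rfl
  set N : ℚ := (Fintype.card α : ℚ) with hN
  have hs1 : ∀ l, 0 < cls r l := by
    intro l
    have : 0 < (univ.filter fun j => r l j).card := Finset.card_pos.2 ⟨l, by simp [hrr]⟩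
    unfold cls
    positivity
  have hs2 : ∀ l, 0 < N - 2 * cls r l := by
    intro l
    have h1 := hp l
    have h2 : (2 * (univ.filter fun j => r l j).card : ℚ) < N := by
      rw [hN]
      exact_mod_cast h1
    unfold cls
    linarith
  set ω : α → ℚ := fun l => (cls r l)⁻¹ * (N - 2 * cls r l)⁻¹ with hω
  have hω0 : ∀ l, 0 ≤ ω l := fun l => mul_nonneg (inv_nonneg.2 (hs1 l).le) (inv_nonneg.2 (hs2 l).le)
  set v : α → α → ℚ := fun l i => N * (if r l i then 1 else 0) - cls r l with hv
  set τ : ℚ := ∑ l, ω l * cls r l ^ 2 with hτ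
  have hτ0 : 0 ≤ τ := Finset.sum_nonneg fun l _ => mul_nonneg (hω0 l) (sq_nonneg _)
  -- the vectors have sum zero
  have hv0 : ∀ l, ∑ i, v l i = 0 := by
    intro l
    simp only [hv]
    rw [Finset.sum_sub_distrib, ← Finset.mul_sum, ← Finset.sum_filter, Finset.sum_const,
      Finset.sum_const, nsmul_eq_mul, nsmul_eq_mul, mul_one, Finset.card_univ]
    unfold cls
    ring
  -- the quadratic form of the sum
  have hquad : ∀ l, ∑ q, ∑ i, ∑ j, (g q i j : ℚ) * (v l i * v l j) = ∑ i, a i * v l i ^ 2 := by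
    intro l
    rw [sum3]
    have h1 : ∀ i, ∑ j, ∑ q, (g q i j : ℚ) * (v l i * v l j) =
        a i * v l i ^ 2 + ∑ j, (b i + b j) * (v l i * v l j) := by
      intro i
      have h2 : ∀ j, ∑ q, (g q i j : ℚ) * (v l i * v l j) =
          (if j = i then a i * v l i ^ 2 else 0) + (b i + b j) * (v l i * v l j) := by
        intro j
        rw [← Finset.sum_mul]
        by_cases hij : j = i
        · rw [if_pos hij, hij]
          simp only [ha]
          ring
        · rw [if_neg hij, hb i j (Ne.symm hij), zero_add]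
      rw [Finset.sum_congr rfl fun j _ => h2 j, Finset.sum_add_distrib, Finset.sum_ite_eq' univ i,
        if_pos (mem_univ _)]
    rw [Finset.sum_congr rfl fun i _ => h1 i, Finset.sum_add_distrib]
    have h3 : ∑ i, ∑ j, (b i + b j) * (v l i * v l j) = 0 := by
      have h4 : ∑ i, ∑ j, (b i + b j) * (v l i * v l j) =
          (∑ i, b i * v l i) * (∑ j, v l j) + (∑ i, v l i) * (∑ j, b j * v l j) := by
        rw [Finset.sum_mul_sum, Finset.sum_mul_sum, ← Finset.sum_add_distrib]
        refine Finset.sum_congr rfl fun i _ => ?_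
        rw [← Finset.sum_add_distrib]
        refine Finset.sum_congr rfl fun j _ => ?_
        ring
      rw [h4, hv0, mul_zero, zero_mul, add_zero]
    rw [h3, add_zero]
  -- the weights
  have hW : ∀ i j, r i j → ∑ l, ω l * (v l i * v l j) = N + τ := by
    intro i j hij
    have h1 : ∀ l, ω l * (v l i * v l j) =
        N * (if r l i then (cls r l)⁻¹ else 0) + ω l * cls r l ^ 2 := by
      intro l
      have h2 : (if r l j then (1 : ℚ) else 0) = if r l i then 1 else 0 := by
        by_cases h : r l i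
        · rw [if_pos h, if_pos (hrt _ _ _ h hij)]
        · rw [if_neg h, if_neg fun h' => h (hrt _ _ _ h' (hrs _ _ hij))]
      simp only [hv, hω]
      rw [h2]
      have h3 := (hs1 l).ne'
      have h4 := (hs2 l).ne'
      by_cases h : r l i
      · rw [if_pos h, if_pos h]
        generalize cls r l = c at h3 h4 ⊢
        generalize N = n at h4 ⊢
        have h5 : c⁻¹ * (n - 2 * c)⁻¹ * ((n * 1 - c) * (n * 1 - c)) =
            n * (c⁻¹ * ((n - 2 * c)⁻¹ * (n - 2 * c))) + c⁻¹ * (n - 2 * c)⁻¹ * c ^ 2 := by ring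
        rw [h5, inv_mul_cancel₀ h4, mul_one]
      · rw [if_neg h, if_neg h]
        ring
    rw [Finset.sum_congr rfl fun l _ => h1 l, Finset.sum_add_distrib, ← Finset.mul_sum,
      cls_sum r hrs hrt i (hrr i), mul_one]
  have hN0 : 0 < N + τ := by
    obtain ⟨x⟩ : Nonempty α := inferInstance
    have := hs1 x
    have := hs2 x
    linarith
  have h1 : (N + τ) * ∑ i, ∑ j, (g p i j : ℚ) =
      ∑ l, ω l * ∑ i, ∑ j, (g p i j : ℚ) * (v l i * v l j) := by
    have h2 : ∀ l, ω l * ∑ i, ∑ j, (g p i j : ℚ) * (v l i * v l j) =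
        ∑ i, ∑ j, (g p i j : ℚ) * (ω l * (v l i * v l j)) := by
      intro l
      rw [Finset.mul_sum]
      refine Finset.sum_congr rfl fun i _ => ?_
      rw [Finset.mul_sum]
      refine Finset.sum_congr rfl fun j _ => ?_
      ring
    rw [Finset.sum_congr rfl fun l _ => h2 l, sum3, Finset.mul_sum]
    refine Finset.sum_congr rfl fun i _ => ?_
    rw [Finset.mul_sum]
    refine Finset.sum_congr rfl fun j _ => ?_
    rw [← Finset.mul_sum]
    by_cases hij : r i j
    · rw [hW i j hij]
      ring
    · have : g p i j = 0 := by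
        have h3 := h0 p i j
        have h4 : ¬ 0 < g p i j := fun h => hij (Or.inr h)
        omega
      rw [this]
      simp
  have h2 : (N + τ) * ∑ i, a i = ∑ l, ω l * ∑ i, a i * v l i ^ 2 := by
    have h3 : ∀ l, ω l * ∑ i, a i * v l i ^ 2 = ∑ i, a i * (ω l * (v l i * v l i)) := by
      intro l
      rw [Finset.mul_sum]
      refine Finset.sum_congr rfl fun i _ => ?_
      ring
    rw [Finset.sum_congr rfl fun l _ => h3 l, Finset.sum_comm, Finset.mul_sum]
    refine Finset.sum_congr rfl fun i _ => ?_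
    rw [← Finset.mul_sum, hW i i (hrr i)]
    ring
  have h3 : (N + τ) * ∑ i, ∑ j, (g p i j : ℚ) ≤ (N + τ) * ∑ i, a i := by
    rw [h1, h2]
    refine Finset.sum_le_sum fun l _ => mul_le_mul_of_nonneg_left ?_ (hω0 l)
    rw [← hquad]
    exact Finset.single_le_sum (f := fun q => ∑ i, ∑ j, (g q i j : ℚ) * (v l i * v l j))
      (fun q _ => ker_psd (g q) (hs q) (hd q) (hu q) (h0 q) (v l)) (mem_univ p)
  exact le_of_mul_le_mul_left h3 hN0

end

end Pool.Agent.N302.MB
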