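import Mathlib
import Pool.Agent.N302.MB.Psd
import Pool.Agent.N302.MB.Charge
import Pool.Agent.N302.MB.Cent

/-!
# Families of ultrametrics with constant sum: the quadratic bound
-/

set_option autoImplicit false

namespace Pool.Agent.N302.MB

open Finset

section

variable {ι α : Type} [Fintype ι] [Fintype α] [DecidableEq ι] [DecidableEq α]

/-- the final inequality -/
theorem arith (N m B Bp R : ℚ) (hm : 2 ≤ m) (hm' : m = 2 ∨ 3 ≤ m) (hN : 5 ≤ N)
    (h4 : 5 * m ^ 2 ≤ 4 * N + 8) (h1 : R + 2 * (N - 1) * B ≤ m * (R - 2 * B))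
    (h2 : R ≤ m * (5 / 2 * Bp)) (h3 : (N - 2) * Bp ≤ (N - 1) * B) : B ≤ 0 := by
  by_contra hB
  push Not at hB
  have e1 : 2 * (N - 1 + m) * B ≤ (m - 1) * R := by nlinarith
  have e2 : (m - 1) * R ≤ (m - 1) * (m * (5 / 2 * Bp)) := mul_le_mul_of_nonneg_left h2 (by linarith)
  have e3 : (N - 2) * (2 * (N - 1 + m) * B) ≤ (m - 1) * m * (5 / 2) * ((N - 2) * Bp) := by
    have := mul_le_mul_of_nonneg_left (e1.trans e2) (show 0 ≤ N - 2 by linarith)
    calc _ ≤ _ := this
      _ = _ := by ring
  have e4 : (m - 1) * m * (5 / 2) * ((N - 2) * Bp) ≤ (m - 1) * m * (5 / 2) * ((N - 1) * B) :=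
    mul_le_mul_of_nonneg_left h3 (mul_nonneg (mul_nonneg (by linarith) (by linarith)) (by norm_num))
  have e5 : (2 * (N - 2) * (N - 1 + m) - (m - 1) * m * (5 / 2) * (N - 1)) * B ≤ 0 := by
    have := e3.trans e4
    linarith
  have e6 : 0 < 2 * (N - 2) * (N - 1 + m) - (m - 1) * m * (5 / 2) * (N - 1) := by
    have f1 : (5 * m ^ 2 + 4 * m - 12) * (N - 2) ≤ 4 * (N - 1 + m) * (N - 2) :=
      mul_le_mul_of_nonneg_right (by linarith) (by linarith)
    have f2 : 0 < (5 * m ^ 2 + 4 * m - 12) * (N - 2) - (m - 1) * m * 5 * (N - 1) := by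
      have f3 : (5 * m ^ 2 + 4 * m - 12) * (N - 2) - (m - 1) * m * 5 * (N - 1) =
        N * (9 * m - 12) - 5 * m ^ 2 - 13 * m + 24 := by ring
      rw [f3]
      rcases hm' with hm' | hm'
      · rw [hm']
        linarith
      · have f4 : (5 * m ^ 2 - 8) / 4 * (9 * m - 12) ≤ N * (9 * m - 12) :=
          mul_le_mul_of_nonneg_right (by linarith) (by linarith)
        have f5 : 3 * m ^ 2 ≤ m ^ 3 := by
          have : m ^ 3 = m * m ^ 2 := by ring
          rw [this]
          exact mul_le_mul_of_nonneg_right hm' (sq_nonneg m)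
        nlinarith
    nlinarith
  have := mul_pos e6 hB
  linarith

/-- the sum of the positive parts -/
theorem pos_part (b : α → ℚ) (hb : ∀ i j, i ≠ j → 0 ≤ b i + b j) (h2 : 2 ≤ Fintype.card α) :
    ((Fintype.card α : ℚ) - 2) * ∑ i, max (b i) 0 ≤ ((Fintype.card α : ℚ) - 1) * ∑ i, b i := by
  have hN : (2 : ℚ) ≤ (Fintype.card α : ℚ) := by exact_mod_cast h2
  by_cases h : ∃ z, b z < 0
  · obtain ⟨z, hz⟩ := h
    have h1 : ∀ k, k ≠ z → 0 ≤ b k ∧ - b z ≤ b k := by
      intro k hk
      have := hb k z hk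
      constructor <;> linarith
    have h3 : ∑ i, max (b i) 0 = ∑ i ∈ univ.erase z, b i := by
      rw [← Finset.add_sum_erase univ _ (mem_univ z), max_eq_right hz.le, zero_add]
      refine Finset.sum_congr rfl fun k hk => ?_
      exact max_eq_left (h1 k (Finset.ne_of_mem_erase hk)).1
    have h4 : ∑ i, b i = b z + ∑ i ∈ univ.erase z, b i :=
      (Finset.add_sum_erase univ _ (mem_univ z)).symm
    have h5 : ((Fintype.card α : ℚ) - 1) * (- b z) ≤ ∑ i ∈ univ.erase z, b i := by
      have h6 := Finset.card_nsmul_le_sum (univ.erase z) b (- b z) fun k hk =>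
        (h1 k (Finset.ne_of_mem_erase hk)).2
      rw [Finset.card_erase_of_mem (mem_univ _), card_univ, nsmul_eq_mul,
        Nat.cast_sub (by omega), Nat.cast_one] at h6
      exact h6
    rw [h3, h4]
    nlinarith
  · push Not at h
    have h1 : ∑ i, max (b i) 0 = ∑ i, b i := Finset.sum_congr rfl fun i _ => max_eq_left (h i)
    rw [h1]
    have := Finset.sum_nonneg fun i (_ : i ∈ (univ : Finset α)) => h i
    nlinarith

/-- the sum over the pairs -/
theorem pair_sum (b : α → ℚ) :
    ∑ i, ∑ j, (if i = j then 0 else b i + b j) = 2 * ((Fintype.card α : ℚ) - 1) * ∑ i, b i := by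
  have h1 : ∀ i, ∑ j, (if i = j then 0 else b i + b j) =
      ((Fintype.card α : ℚ) - 2) * b i + ∑ j, b j := by
    intro i
    have h2 : ∀ j, (if i = j then 0 else b i + b j) = (b i + b j) - if i = j then 2 * b i else 0 := by
      intro j
      by_cases h : i = j
      · rw [if_pos h, if_pos h, h]
        ring
      · rw [if_neg h, if_neg h, sub_zero]
    rw [Finset.sum_congr rfl fun j _ => h2 j, Finset.sum_sub_distrib, Finset.sum_ite_eq,
      if_pos (mem_univ _), Finset.sum_add_distrib, Finset.sum_const, card_univ, nsmul_eq_mul]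
    ring
  rw [Finset.sum_congr rfl fun i _ => h1 i, Finset.sum_add_distrib, ← Finset.mul_sum,
    Finset.sum_const, card_univ, nsmul_eq_mul]
  ring

/-- **Families of ultrametrics with constant sum** on a set with an odd number of elements. -/
theorem trop_odd (e : ι → α → α → ℤ) (he : ∀ p, Ult (e p)) (C : ℤ)
    (hC : ∀ i j, i ≠ j → ∑ p, e p i j = C) (h2 : 2 ≤ Fintype.card ι)
    (hodd : Fintype.card α % 2 = 1) (h5 : 5 ≤ Fintype.card α)
    (hN : 5 * Fintype.card ι ^ 2 ≤ 4 * Fintype.card α + 8) (p : ι) :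
    ∃ c, ∀ i j, i ≠ j → e p i j = c := by
  classical
  set N := Fintype.card α with hNdef
  set m := Fintype.card ι with hmdef
  choose h D hD hDex h0 hu hcls using fun p => centroid (e p) (he p) (by omega)
  have : Nonempty α := Fintype.card_pos_iff.1 (by omega)
  have hne : ∀ i : α, (univ.erase i).Nonempty := fun i => by
    rw [← Finset.card_pos, Finset.card_erase_of_mem (mem_univ _), card_univ]
    omega
  let g0 : ι → α → α → ℤ := fun p i j => e p i j + h p - D p i - D p j
  have hg0s : ∀ p i j, g0 p i j = g0 p j i := by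
    intro p i j
    show e p i j + h p - D p i - D p j = e p j i + h p - D p j - D p i
    rw [(he p).1 i j]
    ring
  let ρ : ι → α → ℤ := fun p i => (univ.erase i).sup' (hne i) fun j => g0 p i j
  have hρ1 : ∀ p i j, i ≠ j → g0 p i j ≤ ρ p i := fun p i j hij =>
    Finset.le_sup' (f := fun j => g0 p i j) (Finset.mem_erase.2 ⟨hij.symm, mem_univ j⟩)
  have hρ2 : ∀ p i, ∃ j, j ≠ i ∧ ρ p i = g0 p i j := by
    intro p i
    obtain ⟨j, hj, hj'⟩ := Finset.exists_mem_eq_sup' (hne i) fun j => g0 p i j
    exact ⟨j, Finset.ne_of_mem_erase hj, hj'⟩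
  let g : ι → α → α → ℤ := fun p i j => if i = j then ρ p i else g0 p i j
  have hgd : ∀ p i, g p i i = ρ p i := fun p i => if_pos rfl
  have hgn : ∀ p i j, i ≠ j → g p i j = g0 p i j := fun p i j hij => if_neg hij
  have hgs : ∀ p i j, g p i j = g p j i := by
    intro p i j
    by_cases hij : i = j
    · rw [hij]
    · rw [hgn _ _ _ hij, hgn _ _ _ (Ne.symm hij), hg0s]
  have hgle : ∀ p i j, g p i j ≤ g p i i := by
    intro p i j
    by_cases hij : i = j
    · rw [hij]
    · rw [hgn _ _ _ hij, hgd]
      exact hρ1 p i j hij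
  have hgu : ∀ p i j k, min (g p i j) (g p j k) ≤ g p i k := by
    intro p i j k
    by_cases hik : i = k
    · subst hik
      exact (min_le_left _ _).trans (hgle p i j)
    · by_cases hij : i = j
      · subst hij
        exact min_le_right _ _
      · by_cases hjk : j = k
        · subst hjk
          exact min_le_left _ _
        · rw [hgn _ _ _ hik, hgn _ _ _ hij, hgn _ _ _ hjk]
          exact hu p i j k hij hjk hik
  have hgnn : ∀ p i j, 0 ≤ g p i j := by
    intro p i j
    by_cases hij : i = j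
    · subst hij
      obtain ⟨k, hk, hk'⟩ := hρ2 p i
      rw [hgd, hk']
      exact h0 p i k hk.symm
    · rw [hgn _ _ _ hij]
      exact h0 p i j hij
  let b : α → ℚ := fun i => (C : ℚ) / 2 + ∑ p, ((h p : ℚ) / 2 - D p i)
  have hb : ∀ i j, i ≠ j → ∑ q, (g q i j : ℚ) = b i + b j := by
    intro i j hij
    have h1 : ∀ q, (g q i j : ℚ) = (e q i j : ℚ) + (((h q : ℚ) / 2 - D q i) + ((h q : ℚ) / 2 - D q j)) := by
      intro q
      rw [hgn _ _ _ hij]
      show ((e q i j + h q - D q i - D q j : ℤ) : ℚ) = _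
      push_cast
      ring
    rw [Finset.sum_congr rfl fun q _ => h1 q, Finset.sum_add_distrib, Finset.sum_add_distrib]
    have h3 : ∑ q, (e q i j : ℚ) = C := by
      rw [← hC i j hij]
      push_cast
      rfl
    rw [h3]
    show _ = ((C : ℚ) / 2 + ∑ p, ((h p : ℚ) / 2 - D p i)) + ((C : ℚ) / 2 + ∑ p, ((h p : ℚ) / 2 - D p j))
    ring
  have hbnn : ∀ i j, i ≠ j → 0 ≤ b i + b j := by
    intro i j hij
    rw [← hb i j hij]
    exact Finset.sum_nonneg fun q _ => by exact_mod_cast hgnn q i j
  set B := ∑ i, b i with hB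
  set R := ∑ i, ∑ q, (g q i i : ℚ) with hR
  have hmain : ∀ p, ∑ i, ∑ j, (g p i j : ℚ) ≤ R - 2 * B := by
    intro p
    have h1 := main_ineq g hgs hgle hgu hgnn b hb p (by
      intro i
      have h3 := hcls p i
      have h4 : (univ.filter fun j => i = j ∨ 0 < g p i j) =
          univ.filter fun j => i = j ∨ 0 < e p i j + h p - D p i - D p j := by
        refine Finset.filter_congr fun j _ => ?_
        by_cases hij : i = j
        · simp [hij]
        · rw [hgn _ _ _ hij]
      rw [h4]
      omega)
    rw [Finset.sum_sub_distrib, ← Finset.mul_sum] at h1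
    exact h1
  have hsum : ∑ p, ∑ i, ∑ j, (g p i j : ℚ) = R + 2 * ((N : ℚ) - 1) * B := by
    rw [sum3, ← pair_sum b, hR, ← Finset.sum_add_distrib]
    refine Finset.sum_congr rfl fun i _ => ?_
    have h1 : ∀ j, ∑ q, (g q i j : ℚ) =
        (if i = j then ∑ q, (g q i i : ℚ) else 0) + if i = j then 0 else b i + b j := by
      intro j
      by_cases hij : i = j
      · rw [if_pos hij, if_pos hij, hij, add_zero]
      · rw [if_neg hij, if_neg hij, zero_add, hb i j hij]
    rw [Finset.sum_congr rfl fun j _ => h1 j, Finset.sum_add_distrib, Finset.sum_ite_eq,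
      if_pos (mem_univ _)]
  have hI1 : R + 2 * ((N : ℚ) - 1) * B ≤ (m : ℚ) * (R - 2 * B) := by
    rw [← hsum, hmdef, ← card_univ, ← nsmul_eq_mul]
    exact Finset.sum_le_card_nsmul _ _ _ fun p _ => hmain p
  have hI2 : R ≤ (m : ℚ) * (5 / 2 * ∑ i, max (b i) 0) := by
    rw [hR, Finset.sum_comm, hmdef, ← card_univ, ← nsmul_eq_mul]
    refine Finset.sum_le_card_nsmul _ _ _ fun p _ => ?_
    have h1 := charge (g p) (hgs p) (fun i j k _ _ _ => hgu p i j k) (fun i => max (b i) 0)
      (fun i => le_max_right _ _) (fun i j hij => by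
        have h3 : (g p i j : ℚ) ≤ ∑ q, (g q i j : ℚ) :=
          Finset.single_le_sum (f := fun q => (g q i j : ℚ)) (fun q _ => by exact_mod_cast hgnn q i j)
            (mem_univ p)
        rw [hb i j hij] at h3
        have := le_max_left (b i) 0
        have := le_max_left (b j) 0
        linarith) _ univ univ (fun i => (g p i i : ℚ)) rfl (Finset.Subset.refl _) (fun k _ => by
          obtain ⟨j, hj, hj'⟩ := hρ2 p k
          refine ⟨j, mem_univ _, hj, ?_⟩
          rw [hgd, hj', hgn _ _ _ hj.symm])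
    simp only [mem_univ, if_true] at h1
    rwa [← Finset.mul_sum] at h1
  have hI3 := pos_part b hbnn (by omega)
  have hB0 : B ≤ 0 := by
    refine arith (N : ℚ) (m : ℚ) B _ R (by exact_mod_cast h2) ?_ (by exact_mod_cast h5)
      (by exact_mod_cast hN) hI1 hI2 hI3
    rcases Nat.lt_or_ge m 3 with h | h
    · left
      exact_mod_cast (show m = 2 by omega)
    · right
      exact_mod_cast h
  -- all products are zero
  have hz : ∀ p i j, i ≠ j → g0 p i j = 0 := by
    intro p i j hij
    have h1 := pair_sum b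
    have hnn : ∀ i j, 0 ≤ (if i = j then 0 else b i + b j) := by
      intro i j
      by_cases h : i = j
      · rw [if_pos h]
      · rw [if_neg h]
        exact hbnn i j h
    have h3 : b i + b j ≤ ∑ i, ∑ j, (if i = j then 0 else b i + b j) := by
      have h4 := Finset.single_le_sum (f := fun j => if i = j then 0 else b i + b j)
        (fun j _ => hnn i j) (mem_univ j)
      have h6 := Finset.single_le_sum (f := fun i => ∑ j, if i = j then 0 else b i + b j)
        (fun i _ => Finset.sum_nonneg fun j _ => hnn i j) (mem_univ i)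
      simp only [if_neg hij] at h4
      exact h4.trans h6
    have hN1 : (1 : ℚ) ≤ (N : ℚ) := by exact_mod_cast (show 1 ≤ N by omega)
    have h4 : b i + b j ≤ 0 := by
      rw [h1] at h3
      refine h3.trans ?_
      exact mul_nonpos_of_nonneg_of_nonpos (by linarith) hB0
    rw [← hb i j hij] at h4
    have h6 : (g p i j : ℚ) ≤ ∑ q, (g q i j : ℚ) :=
      Finset.single_le_sum (f := fun q => (g q i j : ℚ)) (fun q _ => by exact_mod_cast hgnn q i j)
        (mem_univ p)
    have h7 : g p i j ≤ 0 := by exact_mod_cast h6.trans h4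
    have h8 := hgnn p i j
    rw [hgn _ _ _ hij] at h7 h8
    omega
  have hez : ∀ p i j, i ≠ j → e p i j = D p i + D p j - h p := by
    intro p i j hij
    have : e p i j + h p - D p i - D p j = 0 := hz p i j hij
    omega
  -- at most one exception for each `p`
  have hone : ∀ p, (univ.filter fun i => D p i ≠ h p).card ≤ 1 := by
    intro p
    rw [Finset.card_le_one]
    intro i hi k hk
    by_contra hik
    simp only [mem_filter, mem_univ, true_and] at hi hk
    obtain ⟨s, hs⟩ := hDex p
    have his : i ≠ s := fun h => hi (h ▸ hs)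
    have hks : k ≠ s := fun h => hk (h ▸ hs)
    have h1 := (he p).2 i s k his hks.symm hik
    rw [hez p i s his, hez p s k hks.symm, hez p i k hik] at h1
    have := hD p i
    have := hD p k
    omega
  obtain ⟨x, hx⟩ : ∃ x, ∀ p, D p x = h p := by
    by_contra hcon
    push Not at hcon
    have h1 : (univ : Finset α) ⊆ univ.biUnion fun p => univ.filter fun i => D p i ≠ h p := by
      intro i _
      obtain ⟨p, hp⟩ := hcon i
      exact Finset.mem_biUnion.2 ⟨p, mem_univ _, by simp [hp]⟩
    have h3 := (Finset.card_le_card h1).trans Finset.card_biUnion_le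
    have h4 : ∑ p : ι, (univ.filter fun i => D p i ≠ h p).card ≤ m := by
      refine (Finset.sum_le_card_nsmul _ _ 1 fun p _ => hone p).trans ?_
      rw [card_univ, smul_eq_mul, mul_one]
    rw [card_univ] at h3
    have h6 : N ≤ m := h3.trans h4
    nlinarith
  have hS : ∀ i j, i ≠ j → ∑ p, D p i + ∑ p, D p j = C + ∑ p, h p := by
    intro i j hij
    rw [← hC i j hij, ← Finset.sum_add_distrib, ← Finset.sum_add_distrib]
    refine Finset.sum_congr rfl fun p _ => ?_
    rw [hez p i j hij]
    ring
  have hDall : ∀ p i, D p i = h p := by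
    intro p i
    have h1 : ∑ p, D p i = ∑ p, h p := by
      have h3 : ∑ p, D p x = ∑ p, h p := Finset.sum_congr rfl fun p _ => hx p
      by_cases hix : i = x
      · rw [hix, h3]
      · obtain ⟨k, hk⟩ : ∃ k, k ∉ ({i, x} : Finset α) := by
          by_contra hcon
          push Not at hcon
          have h4 := Finset.card_le_card (fun k (_ : k ∈ (univ : Finset α)) => hcon k)
          have h6 : ({i, x} : Finset α).card ≤ 2 := Finset.card_le_two
          rw [card_univ] at h4
          omega
        rw [Finset.mem_insert, Finset.mem_singleton, not_or] at hk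
        have h4 := hS i k (Ne.symm hk.1)
        have h6 := hS x k (Ne.symm hk.2)
        omega
    have h3 : ∑ p, (h p - D p i) = 0 := by
      rw [Finset.sum_sub_distrib, h1, sub_self]
    have h4 := (Finset.sum_eq_zero_iff_of_nonneg fun p _ => by
      have := hD p i
      omega).1 h3 p (mem_univ p)
    omega
  refine ⟨h p, fun i j hij => ?_⟩
  rw [hez p i j hij, hDall, hDall]
  ring

/-- the size of the set for which the functions have to be constant -/
def bq (m : ℕ) : ℕ := max 5 ((5 * m ^ 2 + 3) / 4 - 2)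

/-- **Families of ultrametrics with constant sum.** -/
theorem trop_quad (e : ι → α → α → ℤ) (he : ∀ p, Ult (e p)) (C : ℤ)
    (hC : ∀ i j, i ≠ j → ∑ p, e p i j = C) (h2 : 2 ≤ Fintype.card ι)
    (hN : bq (Fintype.card ι) < Fintype.card α) (p : ι) :
    ∃ c, ∀ i j, i ≠ j → e p i j = c := by
  classical
  unfold bq at hN
  have h5 : 5 < Fintype.card α := lt_of_le_of_lt (le_max_left _ _) hN
  have h6 : (5 * Fintype.card ι ^ 2 + 3) / 4 - 2 < Fintype.card α :=
    lt_of_le_of_lt (le_max_right _ _) hN
  rcases Nat.mod_two_eq_zero_or_one (Fintype.card α) with hev | hodd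
  · obtain ⟨i0, j0, hij0⟩ := Fintype.one_lt_card_iff.1 (show 1 < Fintype.card α by omega)
    refine ⟨e p i0 j0, fun i j hij => ?_⟩
    obtain ⟨x, hx⟩ : ∃ x, x ∉ ({i0, j0, i, j} : Finset α) := by
      by_contra hcon
      push Not at hcon
      have h4 := Finset.card_le_card (fun k (_ : k ∈ (univ : Finset α)) => hcon k)
      have h6 : ({i0, j0, i, j} : Finset α).card ≤ 4 := Finset.card_le_four
      rw [card_univ] at h4
      omega
    simp only [Finset.mem_insert, Finset.mem_singleton, not_or] at hx
    obtain ⟨hx1, hx2, hx3, hx4⟩ := hx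
    have hcard : Fintype.card {k : α // k ≠ x} = Fintype.card α - 1 := by
      rw [Fintype.card_subtype_compl, Fintype.card_subtype_eq]
    obtain ⟨c, hc⟩ := trop_odd (α := {k : α // k ≠ x}) (fun p a b => e p a b)
      (fun p => ⟨fun a b => (he p).1 a b, fun a b c hab hbc hac =>
        (he p).2 a b c (fun h => hab (Subtype.ext h)) (fun h => hbc (Subtype.ext h))
          fun h => hac (Subtype.ext h)⟩) C
      (fun a b hab => hC a b fun h => hab (Subtype.ext h)) h2 (by rw [hcard]; omega)
      (by rw [hcard]; omega) (by rw [hcard]; omega) p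
    have e1 := hc ⟨i0, Ne.symm hx1⟩ ⟨j0, Ne.symm hx2⟩ fun h => hij0 (congrArg Subtype.val h)
    have e2 := hc ⟨i, Ne.symm hx3⟩ ⟨j, Ne.symm hx4⟩ fun h => hij (congrArg Subtype.val h)
    exact e2.trans e1.symm
  · exact trop_odd e he C hC h2 hodd (by omega) (by omega) p

end

end Pool.Agent.N302.MB
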