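import Mathlib
import Pool.Agent.N302.MB.Gen2
import Pool.Agent.N302.MB.Trop2

/-!
# Finiteness of systems of conjugate points with given differences of the norms
-/

set_option autoImplicit false

namespace Pool.Agent.N302.MB

open MvPolynomial Pool.Agent.Helper259.AbsHt

section

variable {F : Type} [Field F] {V : F → ℤ}

theorem IsVal.neg (hV : IsVal V) (a : F) (ha : a ≠ 0) : V (-a) = V a := by
  have h1 : V (-1 : F) = 0 := by
    have := hV.mul (-1) (-1) (neg_ne_zero.2 one_ne_zero) (neg_ne_zero.2 one_ne_zero)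
    rw [neg_mul_neg, mul_one, hV.one] at this
    omega
  rw [← neg_one_mul, hV.mul _ _ (neg_ne_zero.2 one_ne_zero) ha, h1, zero_add]

theorem IsVal.ult (hV : IsVal V) {α : Type} (x : α → F) (hx : ∀ a b, a ≠ b → x a ≠ x b) :
    Ult fun a b => V (x a - x b) := by
  constructor
  · intro a b
    by_cases hab : a = b
    · rw [hab]
    · show V (x a - x b) = V (x b - x a)
      rw [← neg_sub, hV.neg _ (sub_ne_zero.2 (hx b a (Ne.symm hab)))]
  · intro a b c hab hbc hac
    have := hV.add (x a - x b) (x b - x c) (sub_ne_zero.2 (hx a b hab))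
      (sub_ne_zero.2 (hx b c hbc)) (by
        rw [sub_add_sub_cancel]
        exact sub_ne_zero.2 (hx a c hac))
    rw [sub_add_sub_cancel] at this
    exact this

end

/-- the systems of `d` points of `M_{0,M+3}` with coordinates `0, 1, …`, such that the products of
the differences of the coordinates are in `Γ` -/
def Sys (Γ : Subgroup Qbarˣ) (d M : ℕ) : Set (Fin d × Fin (M + 2) → Qbar) :=
  {y | (∀ t, y (t, 0) = 0) ∧ (∀ t, y (t, 1) = 1) ∧ (∀ t a b, a ≠ b → y (t, a) ≠ y (t, b)) ∧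
    ∀ a b, a ≠ b → ∃ u ∈ Γ, ((u : Qbarˣ) : Qbar) = ∏ t, (y (t, a) - y (t, b))}

/-- **The core theorem.** -/
theorem core (Γ : Subgroup Qbarˣ) (hΓ : Γ.FG) (d M : ℕ) (hd : 1 ≤ d) (hM : bq (2 * d) < M + 2) :
    (Sys Γ d M).Finite := by
  classical
  by_contra hinf
  let ι := {p : Fin (M + 2) × Fin (M + 2) // p.1 ≠ p.2}
  let f : ι → MvPolynomial (Fin d × Fin (M + 2)) Qbar := fun p =>
    ∏ t, (X (t, p.1.1) - X (t, p.1.2))
  obtain ⟨F, iF, iA, x, V, V', hV, hV', hg0, hg1, hVV, halt⟩ := generic (Sys Γ d M) hinf Γ hΓ f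
    (fun y hy p => by
      obtain ⟨u, hu, hu2⟩ := hy.2.2.2 p.1.1 p.1.2 p.2
      refine ⟨u, hu, ?_⟩
      rw [hu2]
      simp only [f, map_prod, map_sub, eval_X])
  have hx0 : ∀ t, x (t, 0) = 0 := fun t => by
    have := hg0 (X (t, 0)) fun y hy => by
      rw [eval_X]
      exact hy.1 t
    rwa [aeval_X] at this
  have hx1 : ∀ t, x (t, 1) = 1 := fun t => by
    have := hg0 (X (t, 1) - 1) fun y hy => by
      rw [map_sub, eval_X, map_one, hy.2.1 t, sub_self]
    rw [map_sub, aeval_X, map_one] at this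
    exact sub_eq_zero.1 this
  have hxn : ∀ t a b, a ≠ b → x (t, a) ≠ x (t, b) := fun t a b hab => by
    have := hg1 (X (t, a) - X (t, b)) fun y hy => by
      rw [map_sub, eval_X, eval_X]
      exact sub_ne_zero.2 (hy.2.2.1 t a b hab)
    rw [map_sub, aeval_X, aeval_X] at this
    exact sub_ne_zero.1 this
  have hprod : ∀ (W : F → ℤ), IsVal W → ∀ a b, a ≠ b →
      ∑ t : Fin d, W (x (t, a) - x (t, b)) = W (∏ t : Fin d, (x (t, a) - x (t, b))) := by
    intro W hW a b hab
    rw [hW.prod _ _ fun t _ => sub_ne_zero.2 (hxn t a b hab)]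
  let e : Fin d ⊕ Fin d → Fin (M + 2) → Fin (M + 2) → ℤ := fun p a b =>
    Sum.elim (fun t => V (x (t, a) - x (t, b))) (fun t => V' (x (t, a) - x (t, b))) p
  have he : ∀ p, Ult (e p) := by
    rintro (t | t)
    · exact hV.ult (fun a => x (t, a)) (hxn t)
    · exact hV'.ult (fun a => x (t, a)) (hxn t)
  have hfx : ∀ p : ι, aeval x (f p) = ∏ t, (x (t, p.1.1) - x (t, p.1.2)) := by
    intro p
    simp only [f, map_prod, map_sub, aeval_X]
  have hsum : ∀ a b, a ≠ b → ∑ p, e p a b = 0 := by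
    intro a b hab
    rw [Fintype.sum_sum_type]
    show ∑ t : Fin d, V (x (t, a) - x (t, b)) + ∑ t : Fin d, V' (x (t, a) - x (t, b)) = 0
    rw [hprod V hV a b hab, hprod V' hV' a b hab]
    have := hVV ⟨(a, b), hab⟩
    rw [hfx] at this
    exact this
  have hcard : Fintype.card (Fin d ⊕ Fin d) = 2 * d := by
    rw [Fintype.card_sum, Fintype.card_fin]
    ring
  have htrop := trop_quad e he 0 hsum (by rw [hcard]; omega) (by rw [hcard, Fintype.card_fin]; exact hM)
  have h01 : (0 : Fin (M + 2)) ≠ 1 := by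
    intro h
    have := congrArg Fin.val h
    simp at this
  have hV0 : ∀ t a b, a ≠ b → V (x (t, a) - x (t, b)) = 0 := by
    intro t a b hab
    obtain ⟨c, hc⟩ := htrop (Sum.inl t)
    have h1 : V (x (t, a) - x (t, b)) = c := hc a b hab
    have h2 : V (x (t, 1) - x (t, 0)) = c := hc 1 0 h01.symm
    rw [hx0, hx1, sub_zero, hV.one] at h2
    rw [h1, ← h2]
  rcases halt with ⟨p, hp⟩ | ⟨⟨t, a⟩, ha0, ha⟩
  · apply hp
    rw [hfx, hV.prod _ _ fun t _ => sub_ne_zero.2 (hxn t _ _ p.2)]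
    exact Finset.sum_eq_zero fun t _ => hV0 t _ _ p.2
  · by_cases h : a = 0
    · rw [h] at ha0
      exact ha0 (hx0 t)
    · have := hV0 t a 0 h
      rw [hx0, sub_zero] at this
      omega

end Pool.Agent.N302.MB
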