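import Mathlib
import Pool.Agent.N302.MB.Core
import Pool.Agent.Y734.N.SG.Main
import Pool.Agent.Y734.M.SUN.Main
import Pool.Agent.Y734.M.FINS.Main

/-!
# `S`-integral points of `M_{0,n}` of bounded degree over a number field
-/

set_option autoImplicit false

namespace Pool.Agent.N302.MB

open NumberField IsDedekindDomain Pool.Agent.Y734.M Pool.Agent.Helper259.AbsHt

section

variable {k L : Type} [Field k] [Field L] [Algebra k L]

theorem int_norm [NumberField k] [NumberField L] (S : Finset ℕ) (m : ℕ) (a : L)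
    (ha : IsIntegral ℤ ((∏ p ∈ S, (p : L)) ^ m * a)) :
    IsIntegral ℤ ((∏ p ∈ S, (p : k)) ^ (m * Module.finrank k L) * Algebra.norm k a) := by
  have h1 : IsIntegral ℤ (Algebra.norm k ((∏ p ∈ S, (p : L)) ^ m * a)) :=
    Algebra.isIntegral_norm k ha
  have h2 : (∏ p ∈ S, (p : L)) ^ m = algebraMap k L ((∏ p ∈ S, (p : k)) ^ m) := by
    rw [map_pow, map_prod]
    simp only [map_natCast]
  rw [map_mul, h2, Algebra.norm_algebraMap, ← pow_mul] at h1
  exact h1

theorem SU_norm [NumberField k] [NumberField L] [FiniteDimensional k L] {S : Finset ℕ}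
    {a : L} (ha : SU S a) : SU S (Algebra.norm k a) := by
  obtain ⟨h0, m, h1, h2⟩ := ha
  refine ⟨Algebra.norm_ne_zero_iff.2 h0, m * Module.finrank k L, int_norm S m a h1, ?_⟩
  have h3 : (Algebra.norm k a)⁻¹ = Algebra.norm k a⁻¹ := by
    refine (eq_inv_of_mul_eq_one_left ?_).symm
    rw [← map_mul, inv_mul_cancel₀ h0, map_one]
  rw [h3]
  exact int_norm S m a⁻¹ h2

end

theorem fg_map {G H : Type} [Group G] [Group H] (Γ : Subgroup G) (hΓ : Γ.FG) (f : G →* H) :
    (Γ.map f).FG := by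
  classical
  obtain ⟨T, hT⟩ := hΓ
  refine ⟨T.image f, ?_⟩
  rw [Finset.coe_image, ← MonoidHom.map_closure, hT]

/-- The `S`-units are contained in a finitely generated group. -/
theorem exists_group (k : Type) [Field k] [NumberField k] (S : Finset ℕ)
    (hS : ∀ p ∈ S, p.Prime) : ∃ Γ : Subgroup kˣ, Γ.FG ∧ ∀ a : kˣ, SU S (a : k) → a ∈ Γ := by
  set N : 𝓞 k := ∏ p ∈ S, (p : 𝓞 k) with hN
  have hN0 : N ≠ 0 := Finset.prod_ne_zero_iff.2 fun p hp => by
    exact_mod_cast (hS p hp).ne_zero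
  have hNk : algebraMap (𝓞 k) k N = ∏ p ∈ S, (p : k) := by
    rw [hN, map_prod]
    exact Finset.prod_congr rfl fun p _ => map_natCast _ _
  let T : Set (HeightOneSpectrum (𝓞 k)) := {v | v.asIdeal ∣ Ideal.span {N}}
  have hT : T.Finite := Ideal.finite_factors (by
    rwa [Ne, Ideal.zero_eq_bot, Ideal.span_singleton_eq_bot])
  refine ⟨Pool.Agent.Y734.N.SG.un k T, Pool.Agent.Y734.N.SG.un_fg k T hT, fun a ha => ?_⟩
  intro v hv
  obtain ⟨-, m, h1, h2⟩ := ha
  have hvN : v.valuation k (algebraMap (𝓞 k) k N) = 1 := by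
    refine le_antisymm (v.valuation_le_one N) (not_lt.1 fun h => hv ?_)
    exact (v.valuation_lt_one_iff_dvd N).1 h
  have h3 : ∀ b : k, IsIntegral ℤ ((∏ p ∈ S, (p : k)) ^ m * b) → v.valuation k b ≤ 1 := by
    intro b hb
    have h4 : v.valuation k ((∏ p ∈ S, (p : k)) ^ m * b) ≤ 1 :=
      v.valuation_le_one (K := k) (⟨_, hb⟩ : 𝓞 k)
    rwa [← hNk, map_mul, map_pow, hvN, one_pow, one_mul] at h4
  have h4 := h3 _ h1
  have h5 := h3 _ h2
  have h6 : v.valuation k (a : k) = 1 := by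
    refine le_antisymm h4 ?_
    rw [map_inv₀] at h5
    by_contra hlt
    push Not at hlt
    have h7 : v.valuation k (a : k) ≠ 0 := (Valuation.ne_zero_iff _).2 a.ne_zero
    have h8 := (one_lt_inv₀ (zero_lt_iff.2 h7)).2 hlt
    exact absurd h5 (not_le.2 h8)
  rw [← HeightOneSpectrum.valuationOfNeZero_eq] at h6
  exact_mod_cast h6

/-- the coordinates of the points, for which the first three points are `∞, 0, 1` -/
noncomputable def co {L : Type} [Field L] {M : ℕ} (P : Fin (M + 3) → Fin 2 → L) (a : Fin (M + 2)) :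
    L := nw P 1 a.succ

section

variable {L : Type} [Field L] {M : ℕ} {P : Fin (M + 3) → Fin 2 → L}

theorem succ_zero : (0 : Fin (M + 2)).succ = 1 := rfl

theorem succ_one : (1 : Fin (M + 2)).succ = 2 := by
  apply Fin.ext
  rw [FINS.v2]
  simp

theorem co_zero (hP : Nd P) : co P 0 = 0 := by
  unfold co
  rw [succ_zero, FINS.nw_eq P hP]
  simp [FINS.W]

theorem co_one (hP : Nd P) : co P 1 = 1 := by
  unfold co
  rw [succ_one, SUN.nw_one_two hP]

theorem nw_co (hP : Nd P) (a b : Fin (M + 2)) : nw P a.succ b.succ = co P b - co P a := by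
  unfold co
  rw [FINS.nw_eq P hP, FINS.nw_eq P hP 1, FINS.nw_eq P hP 1]
  simp only [FINS.W, Fin.succ_ne_zero, if_false]
  have h1 : (1 : Fin (M + 3)) ≠ 0 := by simp
  simp only [h1, if_false]
  ring

/-- the determinants in terms of the coordinates -/
def D {K : Type} [Field K] (x : Fin (M + 2) → K) (i j : Fin (M + 3)) : K :=
  Fin.cases (Fin.cases 0 (fun _ => 1) j) (fun a => Fin.cases (-1) (fun b => x b - x a) j) i

theorem nw_D (hP : Nd P) (i j : Fin (M + 3)) : nw P i j = D (co P) i j := by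
  refine Fin.cases ?_ (fun a => ?_) i
  · refine Fin.cases ?_ (fun b => ?_) j
    · rw [FINS.nw_eq P hP]
      simp [FINS.W, D]
    · rw [SUN.nw_zero hP _ (Fin.succ_ne_zero b)]
      simp [D]
  · refine Fin.cases ?_ (fun b => ?_) j
    · rw [SUN.nw_swap, SUN.nw_zero hP _ (Fin.succ_ne_zero a)]
      simp [D]
    · rw [nw_co hP]
      simp [D]

theorem D_map {K : Type} [Field K] (φ : L →+* K) (x : Fin (M + 2) → L) (i j : Fin (M + 3)) :
    φ (D x i j) = D (fun a => φ (x a)) i j := by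
  refine Fin.cases ?_ (fun a => ?_) i
  · refine Fin.cases ?_ (fun b => ?_) j
    · simp [D]
    · simp [D]
  · refine Fin.cases ?_ (fun b => ?_) j
    · simp [D]
    · simp [D]

/-- the cross ratios in terms of the coordinates -/
def crD {K : Type} [Field K] (x : Fin (M + 2) → K) (i j l m : Fin (M + 3)) : K :=
  D x i j * D x l m / (D x i l * D x j m)

theorem cr_D (hP : Nd P) {K : Type} [Field K] (φ : L →+* K) (i j l m : Fin (M + 3)) :
    φ (cr P i j l m) = crD (fun a => φ (co P a)) i j l m := by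
  rw [FINS.cr_eq P hP, map_div₀, map_mul, map_mul, nw_D hP, nw_D hP, nw_D hP, nw_D hP, D_map, D_map,
    D_map, D_map]
  rfl

theorem co_ne (hP : Nd P) (a b : Fin (M + 2)) (hab : a ≠ b) : co P a ≠ co P b := by
  intro h
  have h1 := nw_co hP a b
  rw [h, sub_self] at h1
  have h2 : a.succ ≠ b.succ := fun h => hab (Fin.succ_injective _ h)
  have h3 := SUN.nw_ne hP a.succ b.succ (Fin.succ_ne_zero a) (Fin.succ_ne_zero b)
  rw [h3] at h1
  obtain ⟨h01, h02, h12⟩ := SUN.ne012 M
  exact div_ne_zero (mul_ne_zero (mul_ne_zero (hP 0 1 h01) (hP 0 2 h02)) (hP _ _ h2))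
    (mul_ne_zero (mul_ne_zero (hP 0 _ (Fin.succ_ne_zero a).symm) (hP 0 _ (Fin.succ_ne_zero b).symm))
      (hP 1 2 h12)) h1

end

/-- **The conjugates of the cross ratios are in a finite set.** -/
theorem finite_qbar (k : Type) [Field k] [NumberField k] (r M : ℕ)
    (hM : ∀ d, 1 ≤ d → d ≤ r → bq (2 * d) < M + 2) (S : Finset ℕ) (hS : ∀ p ∈ S, p.Prime) :
    ∃ A : Set Qbar, A.Finite ∧ ∀ (L : Type) (_ : Field L) (_ : NumberField L) (_ : Algebra k L)
      (P : Fin (M + 3) → Fin 2 → L) (θ : L →+* Qbar), Module.finrank k L ≤ r → IP S P →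
        ∀ i j l m, θ (cr P i j l m) ∈ A := by
  classical
  obtain ⟨Γ, hΓ, hΓS⟩ := exists_group k S hS
  have hfin : ∀ (ψ : k →+* Qbar) (d : ℕ), 1 ≤ d → d ≤ r →
      (Sys (Γ.map (Units.map ψ.toMonoidHom)) d M).Finite := fun ψ d h1 h2 =>
    core _ (fg_map _ hΓ _) d M h1 (hM d h1 h2)
  refine ⟨⋃ ψ : k →+* Qbar, ⋃ d ∈ Finset.Icc 1 r, ⋃ t : Fin d, ⋃ i, ⋃ j, ⋃ l, ⋃ m,
    (fun y : Fin d × Fin (M + 2) → Qbar => crD (fun a => y (t, a)) i j l m) ''
      Sys (Γ.map (Units.map ψ.toMonoidHom)) d M, ?_, ?_⟩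
  · refine Set.finite_iUnion fun ψ => Set.Finite.biUnion (Finset.finite_toSet _) fun d hd => ?_
    have hd' := Finset.mem_Icc.1 (Finset.mem_coe.1 hd)
    exact Set.finite_iUnion fun t => Set.finite_iUnion fun i => Set.finite_iUnion fun j =>
      Set.finite_iUnion fun l => Set.finite_iUnion fun m => (hfin ψ d hd'.1 hd'.2).image _
  · intro L iF iN iA P θ hL hP i j l m
    have hfd : FiniteDimensional k L := Module.Finite.of_restrictScalars_finite ℚ k L
    set ψ : k →+* Qbar := θ.comp (algebraMap k L) with hψ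
    let _ : Algebra k Qbar := ψ.toAlgebra
    let θ' : L →ₐ[k] Qbar := { θ with commutes' := fun _ => rfl }
    set d := Module.finrank k L with hd
    have hd1 : 1 ≤ d := Module.finrank_pos
    have hcard : Fintype.card (L →ₐ[k] Qbar) = d := AlgHom.card k L Qbar
    let τ : Fin d ≃ (L →ₐ[k] Qbar) := (Fintype.equivFinOfCardEq hcard).symm
    simp only [Set.mem_iUnion]
    refine ⟨ψ, d, Finset.mem_Icc.2 ⟨hd1, hL⟩, τ.symm θ', i, j, l, m,
      fun ta => τ ta.1 (co P ta.2), ⟨?_, ?_, ?_, ?_⟩, ?_⟩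
    · intro t
      show τ t (co P 0) = 0
      rw [co_zero hP.1, map_zero]
    · intro t
      show τ t (co P 1) = 1
      rw [co_one hP.1, map_one]
    · intro t a b hab h
      exact co_ne hP.1 a b hab ((τ t).injective h)
    · intro a b hab
      have h1 : SU S (nw P b.succ a.succ) := SUN.SU_nw hP _ _ fun h =>
        hab (Fin.succ_injective _ h).symm
      rw [nw_co hP.1] at h1
      have h2 := SU_norm (k := k) h1
      refine ⟨Units.map ψ.toMonoidHom (Units.mk0 _ h2.1),
        Subgroup.mem_map_of_mem _ (hΓS _ h2), ?_⟩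
      have h3 := Algebra.norm_eq_prod_embeddings k Qbar (co P a - co P b)
      show ψ (Algebra.norm k (co P a - co P b)) = _
      rw [show ψ (Algebra.norm k (co P a - co P b)) =
        algebraMap k Qbar (Algebra.norm k (co P a - co P b)) from rfl, h3]
      rw [← Equiv.prod_comp τ]
      refine Finset.prod_congr rfl fun t _ => ?_
      rw [map_sub]
    · show crD (fun a => τ (τ.symm θ') (co P a)) i j l m = θ (cr P i j l m)
      rw [cr_D hP.1 θ, Equiv.apply_symm_apply]
      rfl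

/-- **Finiteness of the integral points of bounded degree.** -/
theorem finite_pts (k : Type) [Field k] [NumberField k] (r M : ℕ)
    (hM : ∀ d, 1 ≤ d → d ≤ r → bq (2 * d) < M + 2) (S : Finset ℕ) (hS : ∀ p ∈ S, p.Prime) :
    Set.Finite {c : Fin (M + 3) → Fin (M + 3) → Fin (M + 3) → Fin (M + 3) → ℂ |
      ∃ (L : Type) (_ : Field L) (_ : NumberField L) (_ : Algebra k L)
        (P : Fin (M + 3) → Fin 2 → L) (φ : L →+* ℂ),
        Module.finrank k L ≤ r ∧ IP S P ∧ c = fun i j l m => φ (cr P i j l m)} := by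
  obtain ⟨A, hA, hA2⟩ := finite_qbar k r M hM S hS
  have hB : (⋃ a ∈ A, {z : ℂ | Polynomial.aeval z (minpoly ℚ a) = 0}).Finite := by
    refine hA.biUnion fun a _ => ?_
    have h0 : minpoly ℚ a ≠ 0 := minpoly.ne_zero
      ((AlgebraicClosure.isAlgebraic ℚ).isAlgebraic a).isIntegral
    refine ((minpoly ℚ a).rootSet_finite ℂ).subset fun z hz => ?_
    exact (Polynomial.mem_rootSet_of_ne h0).2 hz
  refine (Set.Finite.pi' fun i => Set.Finite.pi' fun j => Set.Finite.pi' fun l =>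
    Set.Finite.pi' fun m => hB).subset ?_
  rintro c ⟨L, iF, iN, iA, P, φ, hL, hP, rfl⟩
  intro i j l m
  obtain ⟨θ⟩ : Nonempty (L →ₐ[ℚ] Qbar) := ⟨IsAlgClosed.lift⟩
  simp only [Set.mem_iUnion]
  refine ⟨θ (cr P i j l m), hA2 L iF iN iA P θ hL hP i j l m, ?_⟩
  show Polynomial.aeval (φ (cr P i j l m)) (minpoly ℚ (θ (cr P i j l m))) = 0
  rw [minpoly.algHom_eq θ θ.injective]
  have h1 : Polynomial.aeval ((RingHom.toRatAlgHom φ) (cr P i j l m)) (minpoly ℚ (cr P i j l m)) = 0 := by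
    rw [Polynomial.aeval_algHom_apply, minpoly.aeval, map_zero]
  exact h1

end Pool.Agent.N302.MB
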