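import Mathlib
import Pool.Agent.N302.MB.Pts

/-!
# Infinitely many integral points of degree at most `r` on `M_{0,4r-2}`

The points are `∞, 0`, the `2N`-th roots of unity, and the images `ω x, ω / x` (`ω ^ N = 1`) of `x`
under a dihedral group, `N = r - 1`, where `x ^ (N + 1) - 2 ^ j x ^ N - x - 2 ^ j = 0`.
-/

set_option autoImplicit false

namespace Pool.Agent.N302.MB

open NumberField Pool.Agent.Y734.M Polynomial

/-- the field generated by the point -/
theorem exists_fld (k : Type) [Field k] [NumberField k] (N : ℕ) (hN : 1 ≤ N) (j : ℕ) :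
    ∃ (L : Type) (_ : Field L) (_ : NumberField L) (_ : Algebra k L) (x : L),
      Module.finrank k L ≤ N + 1 ∧ x ^ (N + 1) - 2 ^ j * x ^ N - x - 2 ^ j = 0 := by
  set f : k[X] := X ^ (N + 1) - (C (2 ^ j) * X ^ N + X + C (2 ^ j)) with hf
  have hdeg : (C (2 ^ j : k) * X ^ N + X + C (2 ^ j)).degree < ((N + 1 : ℕ) : WithBot ℕ) := by
    refine (degree_add_le _ _).trans_lt (max_lt ((degree_add_le _ _).trans_lt (max_lt ?_ ?_)) ?_)
    · refine (degree_C_mul_X_pow_le _ _).trans_lt ?_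
      exact_mod_cast Nat.lt_succ_self N
    · rw [degree_X]
      exact_mod_cast (show 1 < N + 1 by omega)
    · refine degree_C_le.trans_lt ?_
      exact_mod_cast (show 0 < N + 1 by omega)
  have hnd : f.natDegree = N + 1 := by
    have h1 : f.degree = ((N + 1 : ℕ) : WithBot ℕ) := by
      rw [hf, degree_sub_eq_left_of_degree_lt] <;> rw [degree_X_pow]
      exact hdeg
    exact natDegree_eq_of_degree_eq_some h1
  have hf0 : f ≠ 0 := by
    intro h
    rw [h, natDegree_zero] at hnd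
    omega
  obtain ⟨g, hg, hgf⟩ : ∃ g : k[X], Irreducible g ∧ g ∣ f :=
    Polynomial.exists_irreducible_of_natDegree_pos (by omega)
  have : Fact (Irreducible g) := ⟨hg⟩
  have hfin : Module.finrank k (AdjoinRoot g) = g.natDegree :=
    (AdjoinRoot.powerBasis hg.ne_zero).finrank
  have hfd : FiniteDimensional k (AdjoinRoot g) := (AdjoinRoot.powerBasis hg.ne_zero).finite
  have hcz : CharZero (AdjoinRoot g) :=
    charZero_of_injective_algebraMap (algebraMap k (AdjoinRoot g)).injective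
  have hfd' : FiniteDimensional ℚ (AdjoinRoot g) := Module.Finite.trans k (AdjoinRoot g)
  refine ⟨AdjoinRoot g, inferInstance, ⟨⟩, inferInstance, AdjoinRoot.root g, ?_, ?_⟩
  · rw [hfin, ← hnd]
    exact natDegree_le_of_dvd hgf hf0
  · have h1 : aeval (AdjoinRoot.root g) f = 0 := by
      obtain ⟨q, hq⟩ := hgf
      rw [hq, map_mul]
      have : aeval (AdjoinRoot.root g) g = 0 := by
        rw [AdjoinRoot.aeval_eq, AdjoinRoot.mk_self]
      rw [this, zero_mul]
    rw [hf] at h1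
    simp only [map_sub, map_add, map_mul, map_pow, aeval_X, aeval_C, map_ofNat] at h1
    rw [← h1]
    ring

section

variable {O : Type} [CommRing O] {D : O}

/-- divisors of powers of `D` -/
def Gd (D a : O) : Prop := ∃ m : ℕ, a ∣ D ^ m

theorem Gd.mul {a b : O} (ha : Gd D a) (hb : Gd D b) : Gd D (a * b) := by
  obtain ⟨m, hm⟩ := ha
  obtain ⟨l, hl⟩ := hb
  exact ⟨m + l, by rw [pow_add]; exact mul_dvd_mul hm hl⟩

theorem Gd.of_dvd {a b : O} (hb : Gd D b) (h : a ∣ b) : Gd D a := by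
  obtain ⟨m, hm⟩ := hb
  exact ⟨m, h.trans hm⟩

theorem Gd.pow {a : O} (ha : Gd D a) (n : ℕ) : Gd D (a ^ n) := by
  obtain ⟨m, hm⟩ := ha
  exact ⟨m * n, by rw [pow_mul]; exact pow_dvd_pow_of_dvd hm n⟩

theorem Gd.neg {a : O} (ha : Gd D a) : Gd D (-a) := by
  obtain ⟨m, hm⟩ := ha
  exact ⟨m, (neg_dvd).2 hm⟩

theorem gd_one : Gd D (1 : O) := ⟨0, one_dvd _⟩

variable {N : ℕ} {ζ x u : O}

/-- the index set of the points -/
abbrev Idx (N : ℕ) : Type := Option (Option (Fin (2 * N) ⊕ (Fin N × Bool)))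

/-- the points -/
def vec (N : ℕ) (ζ x : O) : Idx N → Fin 2 → O
  | none => ![1, 0]
  | some none => ![0, 1]
  | some (some (Sum.inl i)) => ![ζ ^ (i : ℕ), 1]
  | some (some (Sum.inr (i, true))) => ![ζ ^ (2 * (i : ℕ)) * x, 1]
  | some (some (Sum.inr (i, false))) => ![ζ ^ (2 * (i : ℕ)), x]

theorem gd_root (hζ : ζ ^ (2 * N) = 1) (hN : 1 ≤ N) (i : ℕ) : Gd D (ζ ^ i) := by
  refine (gd_one (D := D)).of_dvd ?_
  rw [← one_pow i, ← hζ, ← pow_mul, mul_comm, pow_mul]
  exact dvd_pow_self _ (by omega)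

/-- the differences of roots of unity -/
theorem gd_diff (hζ : ζ ^ (2 * N) = 1) (hN : 1 ≤ N) (hD : Gd D ((2 * N : ℕ) : O))
    (hreg : ∀ i, 0 < i → i < 2 * N → ∀ a : O, (1 - ζ ^ i) * a = 0 → a = 0) (i i' : ℕ)
    (hi : i < 2 * N) (hi' : i' < 2 * N) (hii : i ≠ i') : Gd D (ζ ^ i - ζ ^ i') := by
  have key : ∀ l, 0 < l → l < 2 * N → Gd D (1 - ζ ^ l) := by
    intro l hl hl'
    refine hD.of_dvd ?_
    have h1 : ∑ m ∈ Finset.range (2 * N), (ζ ^ l) ^ m = 0 := by
      apply hreg l hl hl'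
      rw [mul_neg_geom_sum, ← pow_mul, mul_comm, pow_mul, hζ, one_pow, sub_self]
    have h2 : ((2 * N : ℕ) : O) = ∑ m ∈ Finset.range (2 * N), (1 - (ζ ^ l) ^ m) := by
      rw [Finset.sum_sub_distrib, h1, Finset.sum_const, Finset.card_range, nsmul_eq_mul, mul_one,
        sub_zero]
    rw [h2]
    refine Finset.dvd_sum fun m _ => ?_
    have := sub_dvd_pow_sub_pow (1 : O) (ζ ^ l) m
    rwa [one_pow] at this
  rcases Nat.lt_or_gt_of_ne hii with h | h
  · have h1 : ζ ^ i - ζ ^ i' = ζ ^ i * (1 - ζ ^ (i' - i)) := by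
      rw [mul_sub, mul_one, ← pow_add]
      congr 2
      omega
    rw [h1]
    exact (gd_root hζ hN i).mul (key _ (by omega) (by omega))
  · have h1 : ζ ^ i - ζ ^ i' = -(ζ ^ i' * (1 - ζ ^ (i - i'))) := by
      rw [mul_sub, mul_one, ← pow_add, neg_sub]
      congr 2
      omega
    rw [h1]
    exact ((gd_root hζ hN i').mul (key _ (by omega) (by omega))).neg

/-- all determinants are divisors of powers of `D` -/
theorem gd_dt (hζ : ζ ^ (2 * N) = 1) (hN : 1 ≤ N) (hD : Gd D ((2 * N : ℕ) : O)) (hD2 : Gd D (2 : O))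
    (hreg : ∀ i, 0 < i → i < 2 * N → ∀ a : O, (1 - ζ ^ i) * a = 0 → a = 0)
    (hu : Gd D u) (hx : x ^ (N + 1) - u * x ^ N - x - u = 0) (a b : Idx N) (hab : a ≠ b) :
    Gd D (dt (vec N ζ x a) (vec N ζ x b)) := by
  have hxg : Gd D x := by
    refine hu.of_dvd ⟨x ^ N - u * x ^ (N - 1) - 1, ?_⟩
    obtain ⟨M, rfl⟩ : ∃ M, N = M + 1 := ⟨N - 1, by omega⟩
    rw [Nat.add_sub_cancel]
    linear_combination -hx
  have hw1 : Gd D (x ^ N - 1) := by
    refine (hD2.mul hu).of_dvd ⟨x - u, ?_⟩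
    linear_combination -hx
  have hw2 : Gd D (x ^ N + 1) := by
    refine (hD2.mul hxg).of_dvd ⟨x - u, ?_⟩
    linear_combination -hx
  have hw : Gd D (x ^ (2 * N) - 1) := by
    have : x ^ (2 * N) - 1 = (x ^ N - 1) * (x ^ N + 1) := by
      rw [mul_comm 2 N, pow_mul]
      ring
    rw [this]
    exact hw1.mul hw2
  have hr := gd_root (D := D) hζ hN
  have hdiff := gd_diff hζ hN hD hreg
  have h1 : ∀ i l : ℕ, Gd D (ζ ^ i * x - ζ ^ l) := by
    intro i l
    refine hw.of_dvd ?_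
    have := sub_dvd_pow_sub_pow (ζ ^ i * x) (ζ ^ l) (2 * N)
    rwa [mul_pow, ← pow_mul, ← pow_mul, mul_comm i, mul_comm l, pow_mul, pow_mul ζ _ l, hζ, one_pow,
      one_pow, one_mul] at this
  have h2 : ∀ i l : ℕ, Gd D (ζ ^ (2 * i) * x * x - ζ ^ (2 * l)) := by
    intro i l
    refine hw.of_dvd ?_
    have h3 := sub_dvd_pow_sub_pow (ζ ^ (2 * i) * x * x) (ζ ^ (2 * l)) N
    have h4 : (ζ ^ (2 * i) * x * x) ^ N = x ^ (2 * N) := by
      have : (ζ ^ (2 * i) * x * x) ^ N = (ζ ^ (2 * N)) ^ i * x ^ (2 * N) := by ring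
      rw [this, hζ, one_pow, one_mul]
    have h5 : (ζ ^ (2 * l)) ^ N = 1 := by
      have : (ζ ^ (2 * l)) ^ N = (ζ ^ (2 * N)) ^ l := by ring
      rw [this, hζ, one_pow]
    rwa [h4, h5] at h3
  have hsw : ∀ A B : Fin 2 → O, dt A B = - dt B A := by
    intro A B
    unfold dt
    ring
  rcases a with _ | _ | i | ⟨i, _ | _⟩ <;> rcases b with _ | _ | l | ⟨l, _ | _⟩ <;>
    simp only [dt, vec, Matrix.cons_val_zero, Matrix.cons_val_one, mul_one, mul_zero, one_mul,
      zero_mul, sub_zero, zero_sub]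
  · exact absurd rfl hab
  · exact gd_one
  · exact gd_one
  · exact hxg
  · exact gd_one
  · exact gd_one.neg
  · exact absurd rfl hab
  · exact (hr _).neg
  · exact (hr _).neg
  · exact ((hr _).mul hxg).neg
  · exact gd_one.neg
  · exact hr _
  · refine hdiff _ _ i.2 l.2 fun h => hab ?_
    rw [Fin.ext h]
  · exact h1 _ _
  · have := (h1 (2 * l) i).neg
    rwa [neg_sub] at this
  · exact hxg.neg
  · exact hr _
  · have := (h1 l (2 * i)).neg
    rw [neg_sub] at this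
    rwa [mul_comm x]
  · have : ζ ^ (2 * (i : ℕ)) * x - x * ζ ^ (2 * (l : ℕ)) =
      (ζ ^ (2 * (i : ℕ)) - ζ ^ (2 * (l : ℕ))) * x := by ring
    rw [this]
    refine (hdiff _ _ (by omega) (by omega) fun h => hab ?_).mul hxg
    rw [Fin.ext (show (i : ℕ) = l by omega)]
  · have h3 := (h2 l i).neg
    rw [neg_sub] at h3
    have : x * (ζ ^ (2 * (l : ℕ)) * x) = ζ ^ (2 * (l : ℕ)) * x * x := by ring
    rwa [this]
  · exact gd_one.neg
  · exact (hr _).mul hxg
  · exact h1 _ _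
  · exact h2 _ _
  · have : ζ ^ (2 * (i : ℕ)) * x - ζ ^ (2 * (l : ℕ)) * x =
      (ζ ^ (2 * (i : ℕ)) - ζ ^ (2 * (l : ℕ))) * x := by ring
    rw [this]
    refine (hdiff _ _ (by omega) (by omega) fun h => hab ?_).mul hxg
    rw [Fin.ext (show (i : ℕ) = l by omega)]

end

end Pool.Agent.N302.MB
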