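import Mathlib
import Pool.Agent.N302.MB.Sharp

/-!
# Infinitely many integral points of degree at most `r` on `M_{0,4r-2}`: the conclusion
-/

set_option autoImplicit false

namespace Pool.Agent.N302.MB

open NumberField Pool.Agent.Y734.M Polynomial

section

variable {L : Type} [Field L] [NumberField L] {S : Finset ℕ}

/-- the product of the primes as an integer of `L` -/
noncomputable def DS (L : Type) [Field L] [NumberField L] (S : Finset ℕ) : 𝓞 L := ∏ p ∈ S, (p : 𝓞 L)

theorem DS_map : algebraMap (𝓞 L) L (DS L S) = ∏ p ∈ S, (p : L) := by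
  unfold DS
  rw [map_prod]
  exact Finset.prod_congr rfl fun p _ => map_natCast _ _

theorem DS_ne (hS : ∀ p ∈ S, p.Prime) : DS L S ≠ 0 :=
  Finset.prod_ne_zero_iff.2 fun p hp => by exact_mod_cast (hS p hp).ne_zero

theorem Gd.ne (hS : ∀ p ∈ S, p.Prime) {a : 𝓞 L} (ha : Gd (DS L S) a) : a ≠ 0 := by
  obtain ⟨m, b, hb⟩ := ha
  rintro rfl
  rw [zero_mul] at hb
  exact pow_ne_zero m (DS_ne hS) hb

theorem Gd.su (hS : ∀ p ∈ S, p.Prime) {a : 𝓞 L} (ha : Gd (DS L S) a) :
    SU S (algebraMap (𝓞 L) L a) := by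
  have h0 : algebraMap (𝓞 L) L a ≠ 0 := by
    rw [Ne, FaithfulSMul.algebraMap_eq_zero_iff]
    exact ha.ne hS
  obtain ⟨m, b, hb⟩ := ha
  refine ⟨h0, m, ?_, ?_⟩
  · rw [← DS_map, ← map_pow, ← map_mul]
    exact RingOfIntegers.isIntegral_coe _
  · rw [← DS_map, ← map_pow, hb, map_mul, mul_comm (algebraMap (𝓞 L) L a), mul_assoc,
      mul_inv_cancel₀ h0, mul_one]
    exact RingOfIntegers.isIntegral_coe _

omit [NumberField L] in
theorem SU_inv {a : L} (h : SU S a) : SU S a⁻¹ := by
  obtain ⟨h0, m, h1, h2⟩ := h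
  exact ⟨inv_ne_zero h0, m, h2, by rwa [inv_inv]⟩

variable {N : ℕ} {n : ℕ}

/-- The points are integral. -/
theorem ip_vec (hS : ∀ p ∈ S, p.Prime) (ζ x : 𝓞 L)
    (h : ∀ a b : Idx N, a ≠ b → Gd (DS L S) (dt (vec N ζ x a) (vec N ζ x b))) (f : Fin n → Idx N)
    (hf : Function.Injective f) :
    IP S (fun i => fun t => algebraMap (𝓞 L) L (vec N ζ x (f i) t)) := by
  have h1 : ∀ i j : Fin n, dt (fun t => algebraMap (𝓞 L) L (vec N ζ x (f i) t))
      (fun t => algebraMap (𝓞 L) L (vec N ζ x (f j) t)) =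
        algebraMap (𝓞 L) L (dt (vec N ζ x (f i)) (vec N ζ x (f j))) := by
    intro i j
    simp only [dt, map_sub, map_mul]
  have h2 : ∀ i j : Fin n, i ≠ j → SU S (dt (fun t => algebraMap (𝓞 L) L (vec N ζ x (f i) t))
      (fun t => algebraMap (𝓞 L) L (vec N ζ x (f j) t))) := by
    intro i j hij
    rw [h1]
    exact (h _ _ (hf.ne hij)).su hS
  refine ⟨fun i j hij => (h2 i j hij).1, fun g hg => ?_⟩
  unfold cr
  rw [div_eq_mul_inv]
  exact SUN.SU_mul (SUN.SU_mul (h2 _ _ (hg.ne (by decide))) (h2 _ _ (hg.ne (by decide))))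
    (SU_inv (SUN.SU_mul (h2 _ _ (hg.ne (by decide))) (h2 _ _ (hg.ne (by decide)))))

end

/-- an enumeration of the points which begins with `∞, 0, 1, x` -/
theorem exists_enum (N : ℕ) (hN : 1 ≤ N) (n : ℕ) (h4 : 4 ≤ n) (hn : n ≤ 4 * N + 2) :
    ∃ f : Fin n → Idx N, Function.Injective f ∧ f ⟨0, by omega⟩ = none ∧
      f ⟨1, by omega⟩ = some none ∧ f ⟨2, by omega⟩ = some (some (Sum.inl ⟨0, by omega⟩)) ∧
        f ⟨3, by omega⟩ = some (some (Sum.inr (⟨0, by omega⟩, true))) := by
  classical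
  have hcard : Fintype.card (Fin (4 * N + 2)) = (Finset.univ : Finset (Idx N)).card := by
    rw [Fintype.card_fin, Finset.card_univ]
    simp only [Idx, Fintype.card_option, Fintype.card_sum, Fintype.card_prod, Fintype.card_fin,
      Fintype.card_bool]
    omega
  let g : Fin (4 * N + 2) → Idx N := fun i =>
    if (i : ℕ) = 0 then none else if (i : ℕ) = 1 then some none else
      if (i : ℕ) = 2 then some (some (Sum.inl ⟨0, by omega⟩)) else
        some (some (Sum.inr (⟨0, by omega⟩, true)))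
  let s : Finset (Fin (4 * N + 2)) := Finset.univ.filter fun i => (i : ℕ) < 4
  have hg : Set.InjOn g s := by
    intro a ha b hb hab
    have ha' : (a : ℕ) < 4 := by simpa [s] using ha
    have hb' : (b : ℕ) < 4 := by simpa [s] using hb
    apply Fin.ext
    simp only [g] at hab
    split_ifs at hab <;> first | omega | (simp at hab)
  obtain ⟨e, he⟩ := Finset.exists_equiv_extend_of_card_eq hcard (s := s) (f := g)
    (Finset.subset_univ _) hg
  refine ⟨fun i => (e (Fin.castLE hn i) : Idx N), ?_, ?_, ?_, ?_, ?_⟩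
  · intro a b hab
    exact Fin.castLE_injective hn (e.injective (Subtype.ext hab))
  · exact (he _ (by simp [s])).trans (by simp [g])
  · exact (he _ (by simp [s])).trans (by simp [g])
  · exact (he _ (by simp [s])).trans (by simp [g])
  · exact (he _ (by simp [s])).trans (by simp [g])

theorem exists_cyc (m : ℕ) (hm : m ≠ 0) :
    ∃ (k : Type) (_ : Field k) (_ : NumberField k) (z : k), IsPrimitiveRoot z m := by
  have : NeZero m := ⟨hm⟩
  have hC : @IsCyclotomicExtension {m} ℚ (CyclotomicField m ℚ) _ _ (CyclotomicField.algebra m ℚ) :=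
    inferInstance
  obtain ⟨z, hz⟩ := hC.exists_isPrimitiveRoot rfl hm
  exact ⟨CyclotomicField m ℚ, inferInstance, inferInstance, z, hz⟩

/-- **Infinitely many integral points of degree at most `N + 1` on `M_{0,n}`, `n ≤ 4 N + 2`.** -/
theorem sharp (N : ℕ) (hN : 1 ≤ N) (n : ℕ) (h4 : 4 ≤ n) (hn : n ≤ 4 * N + 2) :
    ∃ (k : Type) (_ : Field k) (_ : NumberField k) (S : Finset ℕ), (∀ p ∈ S, p.Prime) ∧
      Set.Infinite {c : Fin n → Fin n → Fin n → Fin n → ℂ |
        ∃ (L : Type) (_ : Field L) (_ : NumberField L) (_ : Algebra k L) (P : Fin n → Fin 2 → L)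
          (φ : L →+* ℂ),
          Module.finrank k L ≤ N + 1 ∧ IP S P ∧ c = fun i j l m => φ (cr P i j l m)} := by
  obtain ⟨k, iFk, iNk, z, hz⟩ := exists_cyc (2 * N) (by omega)
  set S := (2 * N).primeFactors with hSdef
  have hS : ∀ p ∈ S, p.Prime := fun p hp => Nat.prime_of_mem_primeFactors hp
  obtain ⟨f, hf, f0, f1, f2, f3⟩ := exists_enum N hN n h4 hn
  choose L iF iN iA x hL hx using exists_fld k N hN
  have hφ : ∀ j, Nonempty (L j →+* ℂ) := fun j => inferInstance
  let φ : ∀ j, L j →+* ℂ := fun j => (hφ j).some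
  have hxi : ∀ j, IsIntegral ℤ (x j) := by
    intro j
    refine ⟨X ^ (N + 1) - (C (2 ^ j) * X ^ N + X + C (2 ^ j)), monic_X_pow_sub ?_, ?_⟩
    · refine (degree_add_le _ _).trans_lt (max_lt ((degree_add_le _ _).trans_lt (max_lt ?_ ?_)) ?_)
      · refine (degree_C_mul_X_pow_le _ _).trans_lt ?_
        exact_mod_cast Nat.lt_succ_self N
      · rw [degree_X]
        exact_mod_cast (show 1 < N + 1 by omega)
      · refine degree_C_le.trans_lt ?_
        exact_mod_cast (show 0 < N + 1 by omega)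
    · rw [← aeval_def]
      simp only [map_sub, map_add, map_mul, map_pow, aeval_X, map_ofNat]
      rw [← hx j]
      ring
  have hzi : ∀ j, IsIntegral ℤ (algebraMap k (L j) z) := fun j =>
    (hz.isIntegral (by omega)).map (algebraMap k (L j)).toIntAlgHom
  let X' : ∀ j, 𝓞 (L j) := fun j => ⟨x j, hxi j⟩
  let Z' : ∀ j, 𝓞 (L j) := fun j => ⟨algebraMap k (L j) z, hzi j⟩
  have hX' : ∀ j, algebraMap (𝓞 (L j)) (L j) (X' j) = x j := fun j => rfl
  have hZ' : ∀ j, algebraMap (𝓞 (L j)) (L j) (Z' j) = algebraMap k (L j) z := fun j => rfl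
  have hZp : ∀ j, IsPrimitiveRoot (Z' j) (2 * N) := by
    intro j
    have h1 : IsPrimitiveRoot (algebraMap k (L j) z) (2 * N) :=
      hz.map_of_injective (algebraMap k (L j)).injective
    exact IsPrimitiveRoot.of_map_of_injective (f := algebraMap (𝓞 (L j)) (L j))
      (by rwa [hZ']) (RingOfIntegers.coe_injective)
  have hxe : ∀ j, (X' j) ^ (N + 1) - 2 ^ j * (X' j) ^ N - X' j - 2 ^ j = 0 := by
    intro j
    apply RingOfIntegers.coe_injective (K := L j)
    simp only [map_sub, map_mul, map_pow, map_ofNat, map_zero]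
    exact hx j
  have hD2N : ∀ j, Gd (DS (L j) S) ((2 * N : ℕ) : 𝓞 (L j)) := by
    intro j
    refine ⟨2 * N, ?_⟩
    have h1 : (2 * N) ∣ (∏ p ∈ (2 * N).primeFactors, p) ^ (2 * N) :=
      Nat.dvd_prod_primeFactors_pow_self (by omega)
    have h2 := Nat.cast_dvd_cast (α := 𝓞 (L j)) h1
    rw [Nat.cast_pow, Nat.cast_prod] at h2
    exact h2
  have hD2 : ∀ j, Gd (DS (L j) S) (2 : 𝓞 (L j)) := by
    intro j
    refine (hD2N j).of_dvd ⟨(N : 𝓞 (L j)), ?_⟩
    push_cast
    rfl
  have hdt : ∀ j (a b : Idx N), a ≠ b → Gd (DS (L j) S) (dt (vec N (Z' j) (X' j) a) (vec N (Z' j) (X' j) b)) := by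
    intro j a b hab
    refine gd_dt (hZp j).pow_eq_one hN (hD2N j) (hD2 j) ?_ ((hD2 j).pow j) (hxe j) a b hab
    intro i hi hi' c hc
    rcases mul_eq_zero.1 hc with h | h
    · exact absurd (sub_eq_zero.1 h).symm ((hZp j).pow_ne_one_of_pos_of_lt (by omega) hi')
    · exact h
  have hx0 : ∀ j, x j ≠ 0 := by
    intro j h
    have h1 := hx j
    rw [h, zero_pow (by omega), zero_pow (by omega), mul_zero, sub_zero, sub_zero, zero_sub,
      neg_eq_zero] at h1
    exact pow_ne_zero j two_ne_zero h1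
  refine ⟨k, iFk, iNk, S, hS, ?_⟩
  refine Set.infinite_of_injective_forall_mem
    (f := fun j => fun i j' l m => φ j (cr (fun i => fun t =>
      algebraMap (𝓞 (L j)) (L j) (vec N (Z' j) (X' j) (f i) t)) i j' l m)) ?_ ?_
  · intro j j' hjj
    have h1 : (φ j (x j))⁻¹ = (φ j' (x j'))⁻¹ := by
      have h2 := congrFun (congrFun (congrFun (congrFun hjj ⟨0, by omega⟩) ⟨3, by omega⟩)
        ⟨2, by omega⟩) ⟨1, by omega⟩
      have h3 : ∀ j, φ j (cr (fun i => fun t =>
          algebraMap (𝓞 (L j)) (L j) (vec N (Z' j) (X' j) (f i) t)) ⟨0, by omega⟩ ⟨3, by omega⟩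
          ⟨2, by omega⟩ ⟨1, by omega⟩) = (φ j (x j))⁻¹ := by
        intro j
        rw [← map_inv₀]
        congr 1
        simp only [cr, f0, f1, f2, f3, dt, vec, Matrix.cons_val_zero, Matrix.cons_val_one, mul_zero,
          pow_zero, one_mul, map_one, map_zero, sub_zero, mul_one, hX']
        rw [zero_mul, sub_zero, one_div]
      simpa only [h3] using h2
    have h2 : φ j (x j) = φ j' (x j') := inv_injective h1
    have h3 : ∀ j, (φ j (x j)) ^ (N + 1) - 2 ^ j * (φ j (x j)) ^ N - φ j (x j) - 2 ^ j = 0 := by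
      intro j
      have h4 := congrArg (φ j) (hx j)
      simpa only [map_sub, map_mul, map_pow, map_ofNat, map_zero] using h4
    have h4 : φ j (x j) ≠ 0 := (map_ne_zero (φ j)).2 (hx0 j)
    have h5 : ((2 : ℂ) ^ j - 2 ^ j') * ((φ j (x j)) ^ N + 1) = 0 := by
      have e1 := h3 j
      have e2 := h3 j'
      rw [← h2] at e2
      linear_combination e2 - e1
    rcases mul_eq_zero.1 h5 with h | h
    · have h6 : ((2 ^ j : ℕ) : ℂ) = ((2 ^ j' : ℕ) : ℂ) := by
        push_cast
        exact sub_eq_zero.1 h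
      exact Nat.pow_right_injective le_rfl (Nat.cast_injective h6)
    · exfalso
      apply h4
      have e1 := h3 j
      have h7 : φ j (x j) ^ N = -1 := by linear_combination h
      rw [pow_succ, h7] at e1
      have h8 : (2 : ℂ) * φ j (x j) = 0 := by linear_combination -e1
      exact (mul_eq_zero.1 h8).resolve_left two_ne_zero
  · intro j
    exact ⟨L j, iF j, iN j, iA j, _, φ j, hL j, ip_vec hS _ _ (hdt j) f hf, rfl⟩

end Pool.Agent.N302.MB
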